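import Mathlib

set_option autoImplicit false

/-! Landau's criterion for factorial ratios, list form. -/

namespace Pool.Agent.Q33.Fam

open Finset

/-- product of factorials of a list -/
def fp (l : List ℕ) : ℕ := (l.map Nat.factorial).prod

/-- sum of the floors -/
def fs (l : List ℕ) (q : ℕ) : ℕ := (l.map (· / q)).sum

@[simp] lemma fp_nil : fp [] = 1 := rfl
@[simp] lemma fp_cons (a : ℕ) (l : List ℕ) : fp (a :: l) = a.factorial * fp l := by simp [fp]
@[simp] lemma fs_nil (q : ℕ) : fs [] q = 0 := rfl
@[simp] lemma fs_cons (a : ℕ) (l : List ℕ) (q : ℕ) : fs (a :: l) q = a / q + fs l q := by simp [fs]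

lemma fp_ne_zero (l : List ℕ) : fp l ≠ 0 := by
  induction l with
  | nil => simp
  | cons a l ih =>
    rw [fp_cons]
    exact Nat.mul_ne_zero (Nat.factorial_ne_zero a) ih

lemma fact_val (p n B : ℕ) (hp : p.Prime) (hB : n < B) :
    padicValNat p n.factorial = ∑ i ∈ Finset.Ico 1 B, n / p ^ i := by
  haveI := Fact.mk hp
  apply padicValNat_factorial
  rcases Nat.eq_zero_or_pos n with h | h
  · subst h; simpa using hB
  · exact lt_of_le_of_lt (Nat.log_le_self p n) hB

lemma fp_val (p : ℕ) (hp : p.Prime) (l : List ℕ) (B : ℕ) (hB : ∀ a ∈ l, a < B) :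
    padicValNat p (fp l) = ∑ i ∈ Finset.Ico 1 B, fs l (p ^ i) := by
  haveI := Fact.mk hp
  induction l with
  | nil => simp
  | cons a l ih =>
    rw [fp_cons, padicValNat.mul (Nat.factorial_ne_zero a) (fp_ne_zero l),
      ih (fun x hx => hB x (List.mem_cons_of_mem a hx)),
      fact_val p a B hp (hB a List.mem_cons_self), ← Finset.sum_add_distrib]
    apply Finset.sum_congr rfl
    intro i _
    rw [fs_cons]

lemma exists_bound (l1 l2 : List ℕ) : ∃ B, (∀ a ∈ l1, a < B) ∧ (∀ a ∈ l2, a < B) := by
  refine ⟨l1.sum + l2.sum + 1, ?_, ?_⟩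
  · intro a ha
    have := List.single_le_sum (fun x _ => Nat.zero_le x) a ha
    omega
  · intro a ha
    have := List.single_le_sum (fun x _ => Nat.zero_le x) a ha
    omega

lemma val_le (p : ℕ) (hp : p.Prime) (den num : List ℕ) (h : ∀ i, 1 ≤ i → fs den (p ^ i) ≤ fs num (p ^ i)) :
    padicValNat p (fp den) ≤ padicValNat p (fp num) := by
  obtain ⟨B, h1, h2⟩ := exists_bound den num
  rw [fp_val p hp den B h1, fp_val p hp num B h2]
  apply Finset.sum_le_sum
  intro i hi
  exact h i (Finset.mem_Ico.mp hi).1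

/-- Landau's criterion. -/
theorem landau (den num : List ℕ) (h : ∀ q, 2 ≤ q → fs den q ≤ fs num q) : fp den ∣ fp num := by
  rw [← Nat.factorization_le_iff_dvd (fp_ne_zero den) (fp_ne_zero num)]
  intro p
  by_cases hp : p.Prime
  · rw [Nat.factorization_def _ hp, Nat.factorization_def _ hp]
    apply val_le p hp
    intro i hi
    apply h
    calc 2 ≤ p := hp.two_le
      _ = p ^ 1 := (pow_one p).symm
      _ ≤ p ^ i := Nat.pow_le_pow_right hp.pos hi
  · rw [Nat.factorization_eq_zero_of_not_prime _ hp, Nat.factorization_eq_zero_of_not_prime _ hp]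

/-- Landau's criterion away from 2. -/
theorem landau_odd (den num : List ℕ) (h : ∀ q, 3 ≤ q → q % 2 = 1 → fs den q ≤ fs num q) :
    ∃ e : ℕ, fp den ∣ 2 ^ e * fp num := by
  obtain ⟨e, y, hy, he⟩ := Nat.exists_eq_two_pow_mul_odd (fp_ne_zero den)
  refine ⟨e, ?_⟩
  have hy0 : y ≠ 0 := by
    rintro rfl
    simp at hy
  rw [he]
  apply Nat.mul_dvd_mul_left
  rw [← Nat.factorization_le_iff_dvd hy0 (fp_ne_zero num)]
  intro p
  by_cases hp : p.Prime
  · haveI := Fact.mk hp
    rw [Nat.factorization_def _ hp, Nat.factorization_def _ hp]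
    rcases hp.eq_two_or_odd with h2 | h2
    · subst h2
      rw [padicValNat.eq_zero_of_not_dvd]
      · exact Nat.zero_le _
      · rw [Nat.odd_iff] at hy
        omega
    · have h3 : padicValNat p (fp den) ≤ padicValNat p (fp num) := by
        apply val_le p hp
        intro i hi
        have hp3 : 3 ≤ p := by
          have := hp.two_le
          omega
        apply h
        · calc 3 ≤ p := hp3
            _ = p ^ 1 := (pow_one p).symm
            _ ≤ p ^ i := Nat.pow_le_pow_right hp.pos hi
        · rw [Nat.pow_mod, h2]; simp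
      refine le_trans ?_ h3
      rw [he, padicValNat.mul (by positivity) hy0]
      omega
  · rw [Nat.factorization_eq_zero_of_not_prime _ hp, Nat.factorization_eq_zero_of_not_prime _ hp]

/-- reduction of the floors of a linear form -/
lemma fl (a b c q r s x y : ℕ) (hq : 0 < q) :
    (a * (q * x + r) + b * (q * y + s) + c) / q = a * x + b * y + (a * r + b * s + c) / q := by
  have : a * (q * x + r) + b * (q * y + s) + c = (a * r + b * s + c) + q * (a * x + b * y) := by ring
  rw [this, Nat.add_mul_div_left _ _ hq]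
  ring

end Pool.Agent.Q33.Fam
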