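import Pool.Agent.Q33.Fam.Tele
import Pool.Agent.Q33.Fam.Landau

set_option autoImplicit false
set_option linter.all false

namespace Pool.Agent.Q33.Fam

open Finset

lemma Q_ratio {b d : ℤ} (c : ℤ) (num den : List ℕ) (e : ℕ) (h : ((fp den : ℕ) : ℤ) ∣ b ^ e * ((fp num : ℕ) : ℤ))
    (x : ℚ) (hx : x = c * d * (((fp num : ℕ) : ℚ) / ((fp den : ℕ) : ℚ))) : Q b d x := by
  obtain ⟨t, ht⟩ := h
  refine ⟨e, c * t, ?_⟩
  have h0 : ((fp den : ℕ) : ℚ) ≠ 0 := by exact_mod_cast fp_ne_zero den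
  have h1 : (b : ℚ) ^ e * ((fp num : ℕ) : ℚ) = ((fp den : ℕ) : ℚ) * t := by
    have : ((b ^ e * ((fp num : ℕ) : ℤ) : ℤ) : ℚ) = ((((fp den : ℕ) : ℤ) * t : ℤ) : ℚ) := by rw [ht]
    push_cast at this
    exact this
  rw [hx]
  push_cast
  field_simp
  linear_combination (d * c : ℚ) * h1

lemma Q_ratio0 {b d : ℤ} (c : ℤ) (num den : List ℕ) (h : fp den ∣ fp num)
    (x : ℚ) (hx : x = c * d * (((fp num : ℕ) : ℚ) / ((fp den : ℕ) : ℚ))) : Q b d x := by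
  apply Q_ratio c num den 0 _ x hx
  rw [pow_zero, one_mul]
  exact_mod_cast h

lemma V2 : ∃ V : ℕ → ℤ, ∀ n, 1 ≤ n → w2 n = 2 * 1 * (2 * n + 1) * cb n * V n := by
  choose V hV using fun n : ℕ => fun h : 1 ≤ n => w2_V n h
  refine ⟨fun n => if h : 1 ≤ n then V n h else 0, ?_⟩
  intro n h
  simp only [h, dif_pos]
  exact hV n h

lemma V4 : ∃ V : ℕ → ℤ, ∀ n, 1 ≤ n → w4 n = 2 * 2 * (2 * n + 1) * cb n * V n := by
  choose V hV using fun n : ℕ => fun h : 1 ≤ n => w4_V n h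
  refine ⟨fun n => if h : 1 ≤ n then V n h else 0, ?_⟩
  intro n h
  simp only [h, dif_pos]
  exact hV n h

end Pool.Agent.Q33.Fam
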