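import Pool.Agent.Q33.Fam.Three

set_option autoImplicit false
set_option linter.all false

/-! The 3-adic part, second half. -/

namespace Pool.Agent.Q33.Fam

open Finset

/-- valuation shorthand -/
def v (n : ℕ) : ℕ := padicValNat 3 n

lemma v_mul {x y : ℕ} (hx : x ≠ 0) (hy : y ≠ 0) : v (x * y) = v x + v y := padicValNat.mul hx hy

lemma v_fact (n : ℕ) : v n.factorial = V n := rfl

lemma v_three_pow (n : ℕ) : v (3 ^ n) = n := by unfold v; simp

def cbn (n : ℕ) : ℕ := (2 * n).choose n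

lemma cbn_cast (n : ℕ) : ((cbn n : ℕ) : ℤ) = cb n := rfl

lemma cbn_pos (n : ℕ) : 0 < cbn n := Nat.choose_pos (by omega)

def Dn (κ : ℕ) : ℕ := (κ + 1) * (2 * κ + 3) * cbn (κ + 1)

lemma Dn_cast (κ : ℕ) : ((Dn κ : ℕ) : ℤ) = D (κ + 1) := by
  unfold Dn D
  push_cast
  rw [cbn_cast]
  ring

lemma Dn_pos (κ : ℕ) : 0 < Dn κ := by
  unfold Dn
  have := cbn_pos (κ + 1)
  positivity

lemma cbn_v (k : ℕ) : v (cbn k) + 2 * V k = V (2 * k) := by
  have h := Nat.choose_mul_factorial_mul_factorial (n := 2 * k) (k := k) (by omega)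
  have e : 2 * k - k = k := by omega
  rw [e] at h
  have h2 : v (cbn k * k.factorial * k.factorial) = v (2 * k).factorial := by
    rw [← h]; rfl
  rw [v_mul (Nat.mul_ne_zero (cbn_pos k).ne' (Nat.factorial_ne_zero _)) (Nat.factorial_ne_zero _),
    v_mul (cbn_pos k).ne' (Nat.factorial_ne_zero _), v_fact, v_fact] at h2
  omega

lemma Dn_v (κ : ℕ) : v (Dn κ) + V κ + V (κ + 1) = V (2 * κ + 3) := by
  have h := Nat.choose_mul_factorial_mul_factorial (n := 2 * (κ + 1)) (k := κ + 1) (by omega)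
  have e : 2 * (κ + 1) - (κ + 1) = κ + 1 := by omega
  rw [e] at h
  have h1 : Dn κ * κ.factorial * (κ + 1).factorial = (2 * κ + 3).factorial := by
    have e2 : 2 * κ + 3 = 2 * (κ + 1) + 1 := by ring
    rw [e2, Nat.factorial_succ (2 * (κ + 1)), ← h, Nat.factorial_succ κ]
    unfold Dn cbn
    ring
  have h2 : v (Dn κ * κ.factorial * (κ + 1).factorial) = v (2 * κ + 3).factorial := by rw [h1]
  rw [v_mul (Nat.mul_ne_zero (Dn_pos κ).ne' (Nat.factorial_ne_zero _)) (Nat.factorial_ne_zero _),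
    v_mul (Dn_pos κ).ne' (Nat.factorial_ne_zero _), v_fact, v_fact, v_fact] at h2
  exact h2

lemma dvd_of_v {e N : ℕ} (hN : N ≠ 0) (h : e ≤ v N) : 3 ^ e ∣ N :=
  (padicValNat_dvd_iff_le hN).mpr h

lemma split (κ : ℕ) : ∃ D' : ℕ, Dn κ = 3 ^ v (Dn κ) * D' ∧ ¬ 3 ∣ D' := by
  obtain ⟨D', hD'⟩ : 3 ^ v (Dn κ) ∣ Dn κ := pow_padicValNat_dvd
  refine ⟨D', hD', ?_⟩
  rintro ⟨x, hx⟩
  apply pow_succ_padicValNat_not_dvd (p := 3) (Dn_pos κ).ne'
  refine ⟨x, ?_⟩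
  change Dn κ = 3 ^ (v (Dn κ) + 1) * x
  rw [pow_succ]
  conv_lhs => rw [hD', hx]
  ring

lemma s_three_pow (j : ℕ) : s (3 ^ j) = 1 := by
  induction j with
  | zero => rw [pow_zero]; exact s_one
  | succ j ih =>
    have : 3 ^ (j + 1) = 3 * 3 ^ j := by rw [pow_succ]; ring
    rw [this, s_mul, ih]

section

variable (a b m' : ℤ) (w : ℕ → ℤ) (Y : ℕ → ℕ) (hY0 : ∀ k, Y k ≠ 0)
  (hw : ∀ k, w k = cb k * Y k) (hY1 : ∀ k, s (2 * k) ≤ 2 * v (Y k))

include hY0 hw hY1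

lemma low_terms (κ : ℕ) : (3 : ℤ) ^ v (Dn κ) ∣ ∑ k ∈ range κ, (a * k + b) * w k * (3 * m') ^ (κ - k) := by
  apply dvd_sum
  intro k hk
  rw [mem_range] at hk
  have h1 : 3 ^ v (Dn κ) ∣ cbn k * Y k * 3 ^ (κ - k) := by
    apply dvd_of_v (by
      have := cbn_pos k
      have := hY0 k
      positivity)
    rw [v_mul (Nat.mul_ne_zero (cbn_pos k).ne' (hY0 k)) (by positivity), v_mul (cbn_pos k).ne' (hY0 k),
      v_three_pow]
    have e1 := claimA k κ hk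
    have e2 := cbn_v k
    have e3 := Dn_v κ
    have e4 := hY1 k
    have e5 := s_V (2 * k)
    omega
  have h2 : (3 : ℤ) ^ v (Dn κ) ∣ w k * 3 ^ (κ - k) := by
    rw [hw k, ← cbn_cast]
    exact_mod_cast h1
  have e : (a * k + b) * w k * (3 * m') ^ (κ - k) = (w k * 3 ^ (κ - k)) * ((a * k + b) * m' ^ (κ - k)) := by
    rw [mul_pow]; ring
  rw [e]
  exact Dvd.dvd.mul_right h2 _

lemma S_split (κ : ℕ) : ∃ z : ℤ, S a b (3 * m') w (κ + 1) = 3 ^ v (Dn κ) * z + (a * κ + b) * w κ := by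
  obtain ⟨z, hz⟩ := low_terms a b m' w Y hY0 hw hY1 κ
  refine ⟨z, ?_⟩
  rw [← hz]
  unfold S
  rw [sum_range_succ]
  simp

/-- not a power of three -/
lemma three_A (κ : ℕ) (h : (∀ j : ℕ, 2 * κ + 3 ≠ 3 ^ j) ∨ (∃ j : ℕ, 2 * κ + 3 = 3 ^ j ∧ v (Y κ) + 1 = j ∧ (3 : ℤ) ∣ b)) :
    ∃ r : ℤ, r % 3 ≠ 0 ∧ D (κ + 1) ∣ r * S a b (3 * m') w (κ + 1) := by
  obtain ⟨z, hz⟩ := S_split a b m' w Y hY0 hw hY1 κ
  obtain ⟨D', hD, h3⟩ := split κ
  have h1 : (3 : ℤ) ^ v (Dn κ) ∣ (a * κ + b) * w κ := by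
    rcases h with h | ⟨j, hj, hy, hb⟩
    · apply Dvd.dvd.mul_left
      have h1 : 3 ^ v (Dn κ) ∣ cbn κ * Y κ := by
        apply dvd_of_v (Nat.mul_ne_zero (cbn_pos κ).ne' (hY0 κ))
        rw [v_mul (cbn_pos κ).ne' (hY0 κ)]
        have e1 := claimB κ h
        have e2 := cbn_v κ
        have e3 := Dn_v κ
        have e4 := hY1 κ
        have e5 := s_V (2 * κ)
        omega
      rw [hw κ, ← cbn_cast]
      exact_mod_cast h1
    · obtain ⟨r1, r2, r3, r4, r5⟩ := rep_facts κ j hj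
      have h1 : 3 ^ v (Dn κ) ∣ 3 * (cbn κ * Y κ) := by
        apply dvd_of_v (Nat.mul_ne_zero (by norm_num) (Nat.mul_ne_zero (cbn_pos κ).ne' (hY0 κ)))
        rw [v_mul (by norm_num) (Nat.mul_ne_zero (cbn_pos κ).ne' (hY0 κ)), v_mul (cbn_pos κ).ne' (hY0 κ)]
        have e0 : v 3 = 1 := by
          have := v_three_pow 1
          simpa using this
        have e2 := cbn_v κ
        have e3 := Dn_v κ
        have e5 := s_V (2 * κ)
        have e6 := s_V κ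
        have e7 := s_V (κ + 1)
        have e8 := s_V (2 * κ + 3)
        have e10 : s (2 * κ + 3) = 1 := by rw [hj]; exact s_three_pow j
        omega
      have h2 : (3 : ℤ) ∣ a * κ + b := by
        have : (3 : ℤ) ∣ (κ : ℤ) := by
          have : 3 ∣ κ := Nat.dvd_of_mod_eq_zero r5
          exact_mod_cast this
        exact dvd_add (Dvd.dvd.mul_left this a) hb
      obtain ⟨x, hx⟩ := h2
      have h4 : (3 : ℤ) ^ v (Dn κ) ∣ 3 * (cb κ * Y κ) := by
        rw [← cbn_cast]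
        exact_mod_cast h1
      rw [hx, hw κ]
      have e : 3 * x * (cb κ * (Y κ : ℤ)) = (3 * (cb κ * (Y κ : ℤ))) * x := by ring
      rw [e]
      exact Dvd.dvd.mul_right h4 _
  obtain ⟨y, hy⟩ := h1
  refine ⟨D', by omega, z + y, ?_⟩
  rw [hz, hy, ← Dn_cast, hD]
  push_cast
  have : v (3 ^ v (Dn κ) * D') = v (Dn κ) := by rw [← hD]
  rw [this]
  ring

/-- a power of three -/
lemma three_B (κ j : ℕ) (hj : 2 * κ + 3 = 3 ^ j) (hyj : v (Y κ) + 1 = j) (hb : b % 3 ≠ 0) :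
    (∃ r : ℤ, r % 3 ≠ 0 ∧ D (κ + 1) ∣ r * (3 * S a b (3 * m') w (κ + 1))) ∧
    ¬ D (κ + 1) ∣ S a b (3 * m') w (κ + 1) := by
  obtain ⟨z, hz⟩ := S_split a b m' w Y hY0 hw hY1 κ
  obtain ⟨D', hD, h3⟩ := split κ
  obtain ⟨r1, r2, r3, r4, r5⟩ := rep_facts κ j hj
  have hv : v (cbn κ * Y κ) + 1 = v (Dn κ) := by
    rw [v_mul (cbn_pos κ).ne' (hY0 κ)]
    have e2 := cbn_v κ
    have e3 := Dn_v κ
    have e5 := s_V (2 * κ)
    have e6 := s_V κ
    have e7 := s_V (κ + 1)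
    have e8 := s_V (2 * κ + 3)
    have e10 : s (2 * κ + 3) = 1 := by rw [hj]; exact s_three_pow j
    omega
  have hwn : w κ = ((cbn κ * Y κ : ℕ) : ℤ) := by
    rw [hw κ, ← cbn_cast]; push_cast; ring
  have hab : ¬ (3 : ℤ) ∣ a * κ + b := by
    intro h
    have : (3 : ℤ) ∣ (κ : ℤ) := by
      have : 3 ∣ κ := Nat.dvd_of_mod_eq_zero r5
      exact_mod_cast this
    have h2 : (3 : ℤ) ∣ b := (dvd_add_right (Dvd.dvd.mul_left this a)).mp h
    omega
  obtain ⟨P, hP⟩ : ∃ P, v (Dn κ) = P + 1 := ⟨v (cbn κ * Y κ), hv.symm⟩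
  obtain ⟨u, hu⟩ : 3 ^ P ∣ cbn κ * Y κ := by
    apply dvd_of_v (Nat.mul_ne_zero (cbn_pos κ).ne' (hY0 κ))
    omega
  have hu3 : ¬ 3 ∣ u := by
    rintro ⟨x, hx⟩
    apply pow_succ_padicValNat_not_dvd (p := 3) (n := cbn κ * Y κ) (Nat.mul_ne_zero (cbn_pos κ).ne' (hY0 κ))
    have : padicValNat 3 (cbn κ * Y κ) = P := by
      change v (cbn κ * Y κ) = P
      omega
    rw [this, hu, hx, pow_succ]
    exact ⟨x, by ring⟩
  have hS : S a b (3 * m') w (κ + 1) = 3 ^ P * (3 * z + (a * κ + b) * u) := by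
    rw [hz, hwn, hu, hP, pow_succ]
    push_cast
    ring
  have hD2 : D (κ + 1) = 3 ^ P * 3 * D' := by
    rw [← Dn_cast, hD, hP]
    push_cast
    ring
  constructor
  · refine ⟨D', by omega, 3 * z + (a * κ + b) * u, ?_⟩
    rw [hS, hD2]
    ring
  · rintro ⟨t, ht⟩
    rw [hS, hD2] at ht
    have h1 : 3 * z + (a * κ + b) * u = 3 * (D' * t) := by
      have : (3 : ℤ) ^ P ≠ 0 := by positivity
      apply mul_left_cancel₀ this
      rw [ht]; ring
    have h2 : (3 : ℤ) ∣ (a * κ + b) * u := ⟨D' * t - z, by linarith⟩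
    rcases (Int.prime_three.dvd_mul).mp h2 with h4 | h4
    · exact hab h4
    · exact hu3 (by exact_mod_cast h4)

end

/-- final combination: powers of 6, odd numbers, numbers prime to 3 -/
lemma combine3 {d x : ℤ} (i : ℕ) (q r : ℤ) (hq : q % 2 = 1) (hr : r % 3 ≠ 0)
    (h1 : d ∣ 6 ^ i * x) (h2 : d ∣ q * x) (h3 : d ∣ r * x) : d ∣ x := by
  have h4 : d ∣ 3 ^ i * x := by
    apply combine (u := 2 ^ i) (v := q) (coprime_two_pow q hq i)
    · rw [← mul_assoc, ← mul_pow]; norm_num; exact h1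
    · have : q * (3 ^ i * x) = 3 ^ i * (q * x) := by ring
      rw [this]
      exact Dvd.dvd.mul_left h2 _
  apply combine (u := 3 ^ i) (v := r) _ h4 h3
  apply IsCoprime.pow_left
  rw [Int.isCoprime_iff_gcd_eq_one]
  have : ¬ (3 : ℤ) ∣ r := by omega
  have h5 := (Nat.Prime.coprime_iff_not_dvd (Nat.prime_three) (n := r.natAbs)).mpr (by
    intro h
    apply this
    exact Int.natCast_dvd.mpr h)
  exact h5

/-- type 2 -/
def Y2 (k : ℕ) : ℕ := cbn k * (3 * k).choose k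

lemma Y2_ne (k : ℕ) : Y2 k ≠ 0 := by
  unfold Y2
  have := cbn_pos k
  have h2 : 0 < (3 * k).choose k := Nat.choose_pos (by omega)
  positivity

lemma w2_Y (k : ℕ) : w2 k = cb k * Y2 k := by
  unfold w2 Y2
  push_cast
  rw [cbn_cast]
  ring

lemma Y2_v (k : ℕ) : v (Y2 k) = s k := by
  have h := Nat.choose_mul_factorial_mul_factorial (n := 3 * k) (k := k) (by omega)
  have e : 3 * k - k = 2 * k := by omega
  rw [e] at h
  have h0 : 0 < (3 * k).choose k := Nat.choose_pos (by omega)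
  have h2 : v ((3 * k).choose k * k.factorial * (2 * k).factorial) = v (3 * k).factorial := by rw [h]
  rw [v_mul (Nat.mul_ne_zero h0.ne' (Nat.factorial_ne_zero _)) (Nat.factorial_ne_zero _),
    v_mul h0.ne' (Nat.factorial_ne_zero _), v_fact, v_fact, v_fact] at h2
  have h3 := V_mul_add k 0 (by norm_num)
  rw [add_zero] at h3
  have h4 := cbn_v k
  have h5 := s_V k
  unfold Y2
  rw [v_mul (cbn_pos k).ne' h0.ne']
  omega

lemma Y2_h1 (k : ℕ) : s (2 * k) ≤ 2 * v (Y2 k) := by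
  rw [Y2_v]
  have := s_add k k
  have e : k + k = 2 * k := by ring
  rw [e] at this
  omega

lemma Y2_h2 (κ j : ℕ) (hj : 2 * κ + 3 = 3 ^ j) : v (Y2 κ) + 1 = j := by
  rw [Y2_v]
  exact (rep_facts κ j hj).2.1

/-- type 4 -/
def Y4 (k : ℕ) : ℕ := cbn k * (4 * k).choose (2 * k)

lemma Y4_ne (k : ℕ) : Y4 k ≠ 0 := by
  unfold Y4
  have := cbn_pos k
  have h2 : 0 < (4 * k).choose (2 * k) := Nat.choose_pos (by omega)
  positivity

lemma w4_Y (k : ℕ) : w4 k = cb k * Y4 k := by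
  rw [w4_eq]
  unfold Y4
  push_cast
  rw [cbn_cast]
  ring

lemma Y4_v (k : ℕ) : 2 * v (Y4 k) + s (4 * k) = 2 * s k + s (2 * k) := by
  have h := Nat.choose_mul_factorial_mul_factorial (n := 4 * k) (k := 2 * k) (by omega)
  have e : 4 * k - 2 * k = 2 * k := by omega
  rw [e] at h
  have h0 : 0 < (4 * k).choose (2 * k) := Nat.choose_pos (by omega)
  have h2 : v ((4 * k).choose (2 * k) * (2 * k).factorial * (2 * k).factorial) = v (4 * k).factorial := by rw [h]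
  rw [v_mul (Nat.mul_ne_zero h0.ne' (Nat.factorial_ne_zero _)) (Nat.factorial_ne_zero _),
    v_mul h0.ne' (Nat.factorial_ne_zero _), v_fact, v_fact] at h2
  have h4 := cbn_v k
  have h5 := s_V k
  have h6 := s_V (2 * k)
  have h7 := s_V (4 * k)
  unfold Y4
  rw [v_mul (cbn_pos k).ne' h0.ne']
  omega

lemma Y4_h1 (k : ℕ) : s (2 * k) ≤ 2 * v (Y4 k) := by
  have h1 := Y4_v k
  have h2 := s_add (3 * k) k
  rw [s_mul] at h2
  have e : 3 * k + k = 4 * k := by ring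
  rw [e] at h2
  omega

lemma Y4_h2 (κ j : ℕ) (hj : 2 * κ + 3 = 3 ^ j) : v (Y4 κ) + 1 = j := by
  have h1 := Y4_v κ
  obtain ⟨r1, r2, r3, r4, r5⟩ := rep_facts κ j hj
  omega

end Pool.Agent.Q33.Fam
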