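import Mathlib

set_option autoImplicit false
set_option linter.all false

/-! Generic lemmas for the sums `∑_{k<n} (a k + b) w_k m^(n-1-k)`. -/

namespace Pool.Agent.Q33.Fam

open Finset

/-- the sum -/
def S (a b m : ℤ) (w : ℕ → ℤ) (n : ℕ) : ℤ := ∑ k ∈ range n, (a * k + b) * w k * m ^ (n - 1 - k)

/-- central binomial coefficient -/
def cb (n : ℕ) : ℤ := ((2 * n).choose n : ℕ)

/-- `n (2n+1) C(2n,n)` -/
def D (n : ℕ) : ℤ := n * (2 * n + 1) * cb n

lemma S_zero (a b m : ℤ) (w : ℕ → ℤ) : S a b m w 0 = 0 := by simp [S]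

lemma S_succ (a b m : ℤ) (w : ℕ → ℤ) (n : ℕ) :
    S a b m w (n + 1) = m * S a b m w n + (a * n + b) * w n := by
  unfold S
  rw [sum_range_succ, mul_sum]
  have e : n + 1 - 1 - n = 0 := by omega
  rw [e, pow_zero, mul_one]
  congr 1
  apply sum_congr rfl
  intro k hk
  rw [mem_range] at hk
  have : n + 1 - 1 - k = (n - 1 - k) + 1 := by omega
  rw [this, pow_succ]
  ring

lemma cb_succ (n : ℕ) : ((n : ℤ) + 1) * cb (n + 1) = 2 * (2 * n + 1) * cb n := by
  have h := Nat.succ_mul_centralBinom_succ n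
  rw [Nat.centralBinom_eq_two_mul_choose, Nat.centralBinom_eq_two_mul_choose] at h
  unfold cb
  exact_mod_cast h

lemma cb_pos (n : ℕ) : 0 < cb n := by
  unfold cb
  have : 0 < (2 * n).choose n := Nat.choose_pos (by omega)
  exact_mod_cast this

lemma cb_even (n : ℕ) (hn : 1 ≤ n) : (2 : ℤ) ∣ cb n := by
  have h := Nat.two_dvd_centralBinom_of_one_le hn
  rw [Nat.centralBinom_eq_two_mul_choose] at h
  unfold cb
  exact_mod_cast h

lemma D_succ (n : ℕ) : (D (n + 1)) = 2 * (2 * n + 1) * (2 * n + 3) * cb n := by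
  have h := cb_succ n
  unfold D
  push_cast
  linear_combination (2 * (n : ℤ) + 3) * h

lemma D_rec (n : ℕ) : (n : ℤ) * D (n + 1) = 2 * (2 * n + 3) * D n := by
  rw [D_succ]
  unfold D
  ring

lemma D_pos (n : ℕ) (hn : 1 ≤ n) : 0 < D n := by
  unfold D
  have := cb_pos n
  have : (0 : ℤ) < n := by exact_mod_cast hn
  positivity

/-- the 2-adic part: if `w n = 2 e (2n+1) C(2n,n) V n` and `m` is even, then the odd multiples work. -/
lemma two_part (a b m' : ℤ) (w : ℕ → ℤ) (e : ℤ) (V : ℕ → ℤ) (n0 : ℕ) (hn0 : 1 ≤ n0)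
    (hV : ∀ n, n0 ≤ n → w n = 2 * e * (2 * n + 1) * cb n * V n)
    (h0 : ∃ q : ℤ, q % 2 = 1 ∧ e * D n0 ∣ q * S a b (2 * m') w n0) :
    ∀ n, n0 ≤ n → ∃ q : ℤ, q % 2 = 1 ∧ e * D n ∣ q * S a b (2 * m') w n := by
  intro n hn
  induction n, hn using Nat.le_induction with
  | base => exact h0
  | succ n hn ih =>
    obtain ⟨q, hq, s, hs⟩ := ih
    refine ⟨q * (2 * n + 3), ?_, ?_⟩
    · rw [Int.mul_emod, hq]
      have : (2 * (n : ℤ) + 3) % 2 = 1 := by omega
      rw [this]; norm_num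
    · rw [S_succ, hV n hn]
      refine ⟨n * m' * s + q * (a * n + b) * V n, ?_⟩
      have h1 := D_rec n
      have h2 := D_succ n
      have e1 : q * (2 * (n : ℤ) + 3) * (2 * m' * S a b (2 * m') w n + (a * n + b) * (2 * e * (2 * n + 1) * cb n * V n))
          = (2 * (n : ℤ) + 3) * (2 * m') * (q * S a b (2 * m') w n) +
            q * (a * n + b) * e * V n * (2 * (2 * n + 1) * (2 * n + 3) * cb n) := by ring
      rw [e1, hs, ← h2]
      linear_combination (-e * m' * s) * h1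

/-- the part of `D n` prime to `c`, from the weaker divisibility by `n C(2n,n)` -/
lemma odd_part (a b m : ℤ) (w : ℕ → ℤ) (n : ℕ) (hn : 1 ≤ n) (c : ℤ) (hc : c ≠ 0)
    (h1 : (n : ℤ) * cb n ∣ c * S a b m w n)
    (h2 : ((n : ℤ) + 1) * cb (n + 1) ∣ c * S a b m w (n + 1))
    (hw : (2 * (n : ℤ) + 1) * cb n ∣ w n) :
    D n ∣ c * m * S a b m w n := by
  obtain ⟨x, hx⟩ := h1
  obtain ⟨y, hy⟩ := h2
  obtain ⟨v, hv⟩ := hw
  rw [cb_succ, S_succ, hv] at hy
  have hcb : cb n ≠ 0 := (cb_pos n).ne'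
  -- 2 (2n+1) y = m n x + c (a n + b) (2n+1) v
  have h3 : m * n * x = (2 * n + 1) * (2 * y - c * (a * n + b) * v) := by
    apply mul_left_cancel₀ hcb
    linear_combination hy - m * hx
  have h4 : (2 * (n : ℤ) + 1) ∣ m * x := by
    have hcop : IsCoprime (2 * (n : ℤ) + 1) (n : ℤ) := ⟨1, -2, by ring⟩
    apply hcop.dvd_of_dvd_mul_left
    refine ⟨2 * y - c * (a * n + b) * v, ?_⟩
    linear_combination h3
  obtain ⟨z, hz⟩ := h4
  refine ⟨z, ?_⟩
  unfold D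
  linear_combination m * hx + n * cb n * hz

/-- combine divisibilities with coprime multipliers -/
lemma combine {d x u v : ℤ} (h : IsCoprime u v) (h1 : d ∣ u * x) (h2 : d ∣ v * x) : d ∣ x := by
  obtain ⟨p, q, hpq⟩ := h
  have : x = p * (u * x) + q * (v * x) := by linear_combination (-x) * hpq
  rw [this]
  exact dvd_add (Dvd.dvd.mul_left h1 p) (Dvd.dvd.mul_left h2 q)

lemma coprime_two_pow (q : ℤ) (hq : q % 2 = 1) (e : ℕ) : IsCoprime ((2 : ℤ) ^ e) q := by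
  apply IsCoprime.pow_left
  refine ⟨-(q / 2), 1, ?_⟩
  have := Int.emod_add_mul_ediv q 2
  linarith

/-- type 2 weights: `C(2k,k)^2 C(3k,k)` -/
def w2 (k : ℕ) : ℤ := cb k ^ 2 * ((3 * k).choose k : ℕ)

/-- type 4 weights: `(4k)!/(k!)^4` -/
def w4 (k : ℕ) : ℤ := (((4 * k).factorial / (k.factorial) ^ 4 : ℕ) : ℤ)

lemma choose3_dvd (n : ℕ) : (2 * n + 1) ∣ (3 * n).choose n := by
  have h := Nat.choose_succ_right_eq (3 * n) (2 * n)
  have e : 3 * n - 2 * n = n := by omega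
  rw [e] at h
  have h2 : (3 * n).choose (2 * n) = (3 * n).choose n :=
    Nat.choose_symm_of_eq_add (by ring)
  rw [h2] at h
  have hcop : Nat.Coprime (2 * n + 1) n := by
    rw [Nat.coprime_iff_gcd_eq_one]
    have : Nat.gcd (2 * n + 1) n = Nat.gcd 1 n := by
      have e2 : 2 * n + 1 = 1 + n * 2 := by ring
      rw [e2, Nat.gcd_add_mul_left_left]
    rw [this]; simp
  apply hcop.dvd_of_dvd_mul_right
  rw [← h]
  exact Dvd.intro_left _ rfl

lemma w2_dvd (n : ℕ) : (2 * (n : ℤ) + 1) * cb n ∣ w2 n := by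
  obtain ⟨t, ht⟩ := choose3_dvd n
  refine ⟨cb n * t, ?_⟩
  unfold w2
  rw [ht]
  push_cast
  ring

/-- `w2 n = 2 (2n+1) C(2n,n) V` -/
lemma w2_V (n : ℕ) (hn : 1 ≤ n) : ∃ V : ℤ, w2 n = 2 * 1 * (2 * n + 1) * cb n * V := by
  obtain ⟨t, ht⟩ := choose3_dvd n
  obtain ⟨s, hs⟩ := cb_even n hn
  refine ⟨s * t, ?_⟩
  unfold w2
  rw [ht]
  push_cast
  linear_combination (cb n * (2 * (n : ℤ) + 1) * t) * hs

lemma fact4 (k : ℕ) : (4 * k).factorial = ((4 * k).choose (2 * k) * (2 * k).choose k ^ 2) * k.factorial ^ 4 := by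
  have h1 := Nat.choose_mul_factorial_mul_factorial (n := 4 * k) (k := 2 * k) (by omega)
  have h2 := Nat.choose_mul_factorial_mul_factorial (n := 2 * k) (k := k) (by omega)
  have e1 : 4 * k - 2 * k = 2 * k := by omega
  have e2 : 2 * k - k = k := by omega
  rw [e1] at h1
  rw [e2] at h2
  rw [← h1, ← h2]
  ring

lemma w4_eq (k : ℕ) : w4 k = ((4 * k).choose (2 * k) : ℕ) * cb k ^ 2 := by
  unfold w4 cb
  rw [fact4, Nat.mul_div_cancel _ (by positivity)]
  push_cast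
  ring

lemma choose4_dvd (n : ℕ) : (2 * n + 1) ∣ (4 * n).choose (2 * n) := by
  have h := Nat.succ_dvd_centralBinom (2 * n)
  rw [Nat.centralBinom_eq_two_mul_choose] at h
  have : 2 * (2 * n) = 4 * n := by ring
  rwa [this] at h

lemma w4_dvd (n : ℕ) : (2 * (n : ℤ) + 1) * cb n ∣ w4 n := by
  obtain ⟨t, ht⟩ := choose4_dvd n
  refine ⟨cb n * t, ?_⟩
  rw [w4_eq, ht]
  push_cast
  ring

/-- `w4 n = 4 (2n+1) C(2n,n) V` -/
lemma w4_V (n : ℕ) (hn : 1 ≤ n) : ∃ V : ℤ, w4 n = 2 * 2 * (2 * n + 1) * cb n * V := by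
  have hd : 2 * (2 * n + 1) ∣ (4 * n).choose (2 * n) := by
    have h2 := Nat.two_dvd_centralBinom_of_one_le (n := 2 * n) (by omega)
    rw [Nat.centralBinom_eq_two_mul_choose] at h2
    have : 2 * (2 * n) = 4 * n := by ring
    rw [this] at h2
    have hcop : Nat.Coprime 2 (2 * n + 1) := by
      rw [Nat.coprime_two_left]
      exact ⟨n, rfl⟩
    exact hcop.mul_dvd_of_dvd_of_dvd h2 (choose4_dvd n)
  obtain ⟨t, ht⟩ := hd
  obtain ⟨s, hs⟩ := cb_even n hn
  refine ⟨s * t, ?_⟩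
  rw [w4_eq, ht]
  push_cast
  linear_combination (cb n * (2 * (2 * (n : ℤ) + 1)) * t) * hs

end Pool.Agent.Q33.Fam
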