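import Pool.Agent.Q33.Fam.ThreeB
import Pool.Agent.Q33.Fam.Ratio

set_option autoImplicit false
set_option linter.all false

namespace Pool.Agent.Q33.Fam

open Finset

theorem final6 (a b m m2 m3 : ℤ) (w : ℕ → ℤ) (Y : ℕ → ℕ) (V : ℕ → ℤ) (e : ℤ) (he : e ∣ 2)
    (hm2 : m = 2 * m2) (hm3 : m = 3 * m3) (hm0 : m ≠ 0) (hm : ∃ x : ℕ, m ∣ 6 ^ x)
    (hQ : ∀ n : ℕ, 1 ≤ n → Q 6 ((n : ℤ) * cb n) (m * (S a b m w n : ℤ)))
    (hwd : ∀ n : ℕ, (2 * (n : ℤ) + 1) * cb n ∣ w n)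
    (hV : ∀ n, 2 ≤ n → w n = 2 * e * (2 * n + 1) * cb n * V n)
    (h0 : ∃ q : ℤ, q % 2 = 1 ∧ e * D 2 ∣ q * S a b m w 2)
    (hY0 : ∀ k, Y k ≠ 0) (hwY : ∀ k, w k = cb k * Y k) (hY1 : ∀ k, s (2 * k) ≤ 2 * v (Y k))
    (hY2 : ∀ κ j, 2 * κ + 3 = 3 ^ j → v (Y κ) + 1 = j) (n : ℕ) (hn : 2 ≤ n) :
    (((∀ j : ℕ, 2 * n + 1 ≠ 3 ^ j) ∨ (3 : ℤ) ∣ b) → e * D n ∣ S a b m w n) ∧
    ((∃ j : ℕ, 2 * n + 1 = 3 ^ j) → b % 3 ≠ 0 → e * D n ∣ 3 * S a b m w n ∧ ¬ D n ∣ S a b m w n) := by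
  obtain ⟨i, h1⟩ := main_part a b m w 6 (by norm_num) hQ hm hm0 hwd n (by omega)
  rw [hm2] at h0
  obtain ⟨q, hq, h2⟩ := two_part a b m2 w e V 2 (by norm_num) hV h0 n hn
  rw [← hm2] at h2
  have h1' : e * D n ∣ 6 ^ (i + 1) * S a b m w n := by
    obtain ⟨x, hx⟩ := he
    obtain ⟨y, hy⟩ := h1
    refine ⟨3 * x * y, ?_⟩
    rw [pow_succ]
    have : (6 : ℤ) = 3 * (e * x) := by rw [← hx]; norm_num
    calc (6 : ℤ) ^ i * 6 * S a b m w n = 6 * (6 ^ i * S a b m w n) := by ring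
      _ = 3 * (e * x) * (D n * y) := by rw [hy, ← this]
      _ = e * D n * (3 * x * y) := by ring
  obtain ⟨κ, rfl⟩ : ∃ κ, n = κ + 1 := ⟨n - 1, by omega⟩
  have he2 : ¬ (3 : ℤ) ∣ e := fun h => by
    have := dvd_trans h he
    omega
  constructor
  · intro h
    have h' : (∀ j : ℕ, 2 * κ + 3 ≠ 3 ^ j) ∨ (∃ j : ℕ, 2 * κ + 3 = 3 ^ j ∧ v (Y κ) + 1 = j ∧ (3 : ℤ) ∣ b) := by
      by_cases hh : ∀ j : ℕ, 2 * κ + 3 ≠ 3 ^ j
      · left; exact hh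
      · push Not at hh
        obtain ⟨j, hj⟩ := hh
        rcases h with h | h
        · exact absurd hj (by have := h j; omega)
        · right
          exact ⟨j, hj, hY2 κ j hj, h⟩
    obtain ⟨r, hr, h3⟩ := three_A a b m3 w Y hY0 hwY hY1 κ h'
    rw [← hm3] at h3
    apply combine3 (i + 1) q (e * r) hq _ h1' h2
    · rw [mul_assoc]; exact mul_dvd_mul_left e h3
    · intro h4
      rcases (Int.prime_three.dvd_mul).mp (Int.dvd_of_emod_eq_zero h4) with h5 | h5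
      · exact he2 h5
      · omega
  · rintro ⟨j, hj⟩ hb
    obtain ⟨⟨r, hr, h3⟩, h4⟩ := three_B a b m3 w Y hY0 hwY hY1 κ j (by omega) (hY2 κ j (by omega)) hb
    rw [← hm3] at h3 h4
    refine ⟨?_, h4⟩
    apply combine3 (i + 1) q (e * r) hq _ _ _
    · rw [mul_assoc]; exact mul_dvd_mul_left e h3
    · intro h4
      rcases (Int.prime_three.dvd_mul).mp (Int.dvd_of_emod_eq_zero h4) with h5 | h5
      · exact he2 h5
      · omega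
    · have : 6 ^ (i + 1) * (3 * S a b m w (κ + 1)) = (6 ^ (i + 1) * S a b m w (κ + 1)) * 3 := by ring
      rw [this]
      exact Dvd.dvd.mul_right h1' 3
    · have : q * (3 * S a b m w (κ + 1)) = (q * S a b m w (κ + 1)) * 3 := by ring
      rw [this]
      exact Dvd.dvd.mul_right h2 3

lemma rat_int (x d : ℤ) (hd : d ≠ 0) (h : d ∣ x) : ∃ z : ℤ, (x : ℚ) / d = z ∧ x = d * z := by
  obtain ⟨z, rfl⟩ := h
  refine ⟨z, ?_, rfl⟩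
  have : (d : ℚ) ≠ 0 := by exact_mod_cast hd
  push_cast
  field_simp

lemma rat_three (x d e : ℤ) (hd : e * d ≠ 0) (h : e * d ∣ 3 * x) (h' : ¬ d ∣ x) :
    ∃ z : ℤ, 3 * ((x : ℚ) / ((e * d : ℤ) : ℚ)) = z ∧ ¬ (3 : ℤ) ∣ z := by
  obtain ⟨z, hz⟩ := h
  have h0 : ((e * d : ℤ) : ℚ) ≠ 0 := by exact_mod_cast hd
  refine ⟨z, ?_, ?_⟩
  · have : ((3 * x : ℤ) : ℚ) = ((e * d * z : ℤ) : ℚ) := by rw [hz]
    rw [← mul_div_assoc, div_eq_iff h0]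
    push_cast at this ⊢
    linarith
  · rintro ⟨t, rfl⟩
    apply h'
    refine ⟨e * t, ?_⟩
    have : 3 * x = 3 * (d * (e * t)) := by rw [hz]; ring
    linarith

end Pool.Agent.Q33.Fam
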