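import Pool.Agent.Q33.Fam.Landau

set_option autoImplicit false
set_option linter.all false

namespace Pool.Agent.Q33.Fam

open Finset

/-- Landau's criterion away from a prime. -/
theorem landau_away (p0 : ℕ) (hp0 : p0.Prime) (den num : List ℕ)
    (h : ∀ q, 2 ≤ q → q % p0 ≠ 0 → fs den q ≤ fs num q) :
    ∃ e : ℕ, fp den ∣ p0 ^ e * fp num := by
  refine ⟨padicValNat p0 (fp den), ?_⟩
  haveI := Fact.mk hp0
  obtain ⟨y, hy⟩ : p0 ^ padicValNat p0 (fp den) ∣ fp den := pow_padicValNat_dvd
  have hy0 : y ≠ 0 := by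
    rintro rfl
    exact fp_ne_zero den (by rw [hy]; simp)
  have hyp : ¬ p0 ∣ y := by
    rintro ⟨x, hx⟩
    apply pow_succ_padicValNat_not_dvd (p := p0) (fp_ne_zero den)
    refine ⟨x, ?_⟩
    rw [pow_succ]
    conv_lhs => rw [hy, hx]
    ring
  have key : y ∣ fp num := by
    rw [← Nat.factorization_le_iff_dvd hy0 (fp_ne_zero num)]
    intro p
    by_cases hp : p.Prime
    · haveI := Fact.mk hp
      rw [Nat.factorization_def _ hp, Nat.factorization_def _ hp]
      by_cases h2 : p = p0
      · subst h2
        rw [padicValNat.eq_zero_of_not_dvd hyp]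
        exact Nat.zero_le _
      · have h3 : padicValNat p (fp den) ≤ padicValNat p (fp num) := by
          apply val_le p hp
          intro i hi
          apply h
          · calc 2 ≤ p := hp.two_le
              _ = p ^ 1 := (pow_one p).symm
              _ ≤ p ^ i := Nat.pow_le_pow_right hp.pos hi
          · intro h4
            have h5 := hp0.dvd_of_dvd_pow (Nat.dvd_of_mod_eq_zero h4)
            exact h2 ((Nat.prime_dvd_prime_iff_eq hp0 hp).mp h5).symm
        refine le_trans ?_ h3
        have h6 : padicValNat p (fp den) = padicValNat p (p0 ^ padicValNat p0 (fp den) * y) := by rw [← hy]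
        rw [h6, padicValNat.mul (pow_ne_zero _ hp0.ne_zero) hy0]
        omega
    · rw [Nat.factorization_eq_zero_of_not_prime _ hp, Nat.factorization_eq_zero_of_not_prime _ hp]
  obtain ⟨z, hz⟩ := key
  refine ⟨z, ?_⟩
  rw [hz]
  conv_rhs => rw [hy]
  ring

theorem landau_three (den num : List ℕ) (h : ∀ q, 2 ≤ q → q % 3 ≠ 0 → fs den q ≤ fs num q) :
    ∃ e : ℕ, fp den ∣ 3 ^ e * fp num := landau_away 3 Nat.prime_three den num h

end Pool.Agent.Q33.Fam
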