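import Pool.Agent.Q33.Fam.Tele

set_option autoImplicit false
set_option linter.all false

namespace Pool.Agent.Q33.Fam

open Finset

/-- alternating sums with terms decreasing in absolute value keep their sign -/
lemma sign_alt (a b B : ℤ) (w : ℕ → ℤ) (hB : 0 < B)
    (hc : ∀ k : ℕ, 0 < (a * k + b) * w k)
    (hd : ∀ k : ℕ, (a * (k + 1 : ℕ) + b) * w (k + 1) < B * ((a * k + b) * w k)) (n : ℕ) :
    0 < (-1) ^ n * S a b (-B) w (n + 1) := by
  have key : ∀ n : ℕ, (0 < (-1) ^ n * S a b (-B) w (n + 1)) ∧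
      (n % 2 = 0 → (a * n + b) * w n ≤ (-1) ^ n * S a b (-B) w (n + 1)) := by
    intro n
    induction n with
    | zero =>
      have h0 := hc 0
      rw [S_succ, S_zero]
      simp only [pow_zero, one_mul, mul_zero, zero_add]
      exact ⟨h0, fun _ => le_refl _⟩
    | succ n ih =>
      obtain ⟨h1, h2⟩ := ih
      have e : (-1 : ℤ) ^ (n + 1) * S a b (-B) w (n + 1 + 1) =
          B * ((-1) ^ n * S a b (-B) w (n + 1)) + (-1) ^ (n + 1) * ((a * (n + 1 : ℕ) + b) * w (n + 1)) := by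
        rw [S_succ (n := n + 1), pow_succ]
        ring
      have h3 := hc (n + 1)
      have h4 := hd n
      rcases Nat.mod_two_eq_zero_or_one n with h | h
      · have h5 : (-1 : ℤ) ^ (n + 1) = -1 := Odd.neg_one_pow (Nat.odd_iff.mpr (by omega))
        refine ⟨?_, fun h6 => by omega⟩
        rw [e, h5]
        have h6 := mul_le_mul_of_nonneg_left (h2 h) hB.le
        linarith
      · have h5 : (-1 : ℤ) ^ (n + 1) = 1 := Even.neg_one_pow (Nat.even_iff.mpr (by omega))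
        have h6 := mul_pos hB h1
        refine ⟨?_, fun _ => ?_⟩
        · rw [e, h5]; linarith
        · rw [e, h5]; linarith
  exact (key n).1

lemma w4_pos (k : ℕ) : 0 < w4 k := by
  rw [w4_eq]
  have h1 := cb_pos k
  have h2 : 0 < (4 * k).choose (2 * k) := Nat.choose_pos (by omega)
  have h3 : (0 : ℤ) < ((4 * k).choose (2 * k) : ℕ) := by exact_mod_cast h2
  positivity

lemma w4_rec (k : ℕ) : ((k : ℤ) + 1) ^ 3 * w4 (k + 1) = 8 * (4 * k + 1) * (2 * k + 1) * (4 * k + 3) * w4 k := by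
  have h : ((((k : ℤ) + 1) ^ 3 * w4 (k + 1) : ℤ) : ℚ) = ((8 * (4 * k + 1) * (2 * k + 1) * (4 * k + 3) * w4 k : ℤ) : ℚ) := by
    push_cast
    rw [w4_fact, w4_fact]
    have e1 : 4 * (k + 1) = 4 * k + 1 + 1 + 1 + 1 := by ring
    rw [e1, Nat.factorial_succ, Nat.factorial_succ, Nat.factorial_succ, Nat.factorial_succ, Nat.factorial_succ k]
    push_cast
    have h1 : (k.factorial : ℚ) ≠ 0 := by exact_mod_cast Nat.factorial_ne_zero _
    have h2 : ((k : ℚ) + 1) ≠ 0 := by positivity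
    field_simp
    ring
  exact_mod_cast h

lemma w4_step (k : ℕ) : w4 (k + 1) ≤ 256 * w4 k := by
  have h := w4_rec k
  have hp := w4_pos k
  have h1 : (8 * (4 * (k : ℤ) + 1) * (2 * k + 1) * (4 * k + 3)) ≤ 256 * ((k : ℤ) + 1) ^ 3 := by
    have : (0 : ℤ) ≤ k := by positivity
    nlinarith [mul_nonneg this this, mul_nonneg (mul_nonneg this this) this]
  have h2 : ((k : ℤ) + 1) ^ 3 * w4 (k + 1) ≤ ((k : ℤ) + 1) ^ 3 * (256 * w4 k) := by
    rw [h]
    calc 8 * (4 * (k : ℤ) + 1) * (2 * k + 1) * (4 * k + 3) * w4 k ≤ (256 * ((k : ℤ) + 1) ^ 3) * w4 k :=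
          mul_le_mul_of_nonneg_right h1 hp.le
      _ = ((k : ℤ) + 1) ^ 3 * (256 * w4 k) := by ring
  have h3 : (0 : ℤ) < ((k : ℤ) + 1) ^ 3 := by positivity
  exact le_of_mul_le_mul_left h2 h3

lemma w4_zero : w4 0 = 1 := by unfold w4; norm_num
lemma w4_one : w4 1 = 24 := by unfold w4; norm_num [Nat.factorial]

lemma w2_pos (k : ℕ) : 0 < w2 k := by
  unfold w2
  have h1 := cb_pos k
  have h2 : 0 < (3 * k).choose k := Nat.choose_pos (by omega)
  have h3 : (0 : ℤ) < ((3 * k).choose k : ℕ) := by exact_mod_cast h2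
  positivity

lemma w2_rec (k : ℕ) : ((k : ℤ) + 1) ^ 3 * w2 (k + 1) = 6 * (2 * k + 1) * (3 * k + 1) * (3 * k + 2) * w2 k := by
  have h : ((((k : ℤ) + 1) ^ 3 * w2 (k + 1) : ℤ) : ℚ) = ((6 * (2 * k + 1) * (3 * k + 1) * (3 * k + 2) * w2 k : ℤ) : ℚ) := by
    push_cast
    rw [w2_fact, w2_fact]
    have e1 : 3 * (k + 1) = 3 * k + 1 + 1 + 1 := by ring
    have e2 : 2 * (k + 1) = 2 * k + 1 + 1 := by ring
    rw [e1, e2, Nat.factorial_succ (3 * k + 1 + 1), Nat.factorial_succ (3 * k + 1), Nat.factorial_succ (3 * k),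
      Nat.factorial_succ (2 * k + 1), Nat.factorial_succ (2 * k), Nat.factorial_succ k]
    push_cast
    have h1 : (k.factorial : ℚ) ≠ 0 := by exact_mod_cast Nat.factorial_ne_zero _
    have h2 : ((k : ℚ) + 1) ≠ 0 := by positivity
    field_simp
    ring
  exact_mod_cast h

lemma w2_step (k : ℕ) : w2 (k + 1) ≤ 108 * w2 k := by
  have h := w2_rec k
  have hp := w2_pos k
  have h1 : (6 * (2 * (k : ℤ) + 1) * (3 * k + 1) * (3 * k + 2)) ≤ 108 * ((k : ℤ) + 1) ^ 3 := by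
    have : (0 : ℤ) ≤ k := by positivity
    nlinarith [mul_nonneg this this, mul_nonneg (mul_nonneg this this) this]
  have h2 : ((k : ℤ) + 1) ^ 3 * w2 (k + 1) ≤ ((k : ℤ) + 1) ^ 3 * (108 * w2 k) := by
    rw [h]
    calc 6 * (2 * (k : ℤ) + 1) * (3 * k + 1) * (3 * k + 2) * w2 k ≤ (108 * ((k : ℤ) + 1) ^ 3) * w2 k :=
          mul_le_mul_of_nonneg_right h1 hp.le
      _ = ((k : ℤ) + 1) ^ 3 * (108 * w2 k) := by ring
  have h3 : (0 : ℤ) < ((k : ℤ) + 1) ^ 3 := by positivity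
  exact le_of_mul_le_mul_left h2 h3

lemma w2_zero : w2 0 = 1 := by unfold w2 cb; norm_num
lemma w2_one : w2 1 = 12 := by unfold w2 cb; norm_num [Nat.choose]

end Pool.Agent.Q33.Fam
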