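import Pool.Agent.Q33.Fam.Basic

set_option autoImplicit false
set_option linter.all false

namespace Pool.Agent.Q33.Fam

open Finset

lemma tele (m : ℤ) (a b : ℤ) (w : ℕ → ℤ) (f g : ℕ → ℕ → ℚ)
    (hW : ∀ N k, k ≤ N → g (N + 1) k - m * g N k = m * (f N k - f N (k + 1)))
    (hf : ∀ N, f N (N + 1) = 0) (hg : ∀ N, g N N = 0)
    (h0 : ∀ N : ℕ, f N 0 = ((a * N + b) * w N : ℤ)) (N : ℕ) :
    ∑ k ∈ range N, g N k = m * (S a b m w N : ℤ) := by
  induction N with
  | zero => simp [S_zero]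
  | succ N ih =>
    rw [S_succ]
    have h1 : ∑ k ∈ range (N + 1), (g (N + 1) k - m * g N k) = m * (f N 0 - f N (N + 1)) := by
      rw [← Finset.sum_range_sub' (fun k => f N k) (N + 1), mul_sum]
      apply sum_congr rfl
      intro k hk
      rw [mem_range] at hk
      exact hW N k (by omega)
    rw [sum_sub_distrib, ← mul_sum, sum_range_succ (fun k => g N k), hg, hf, ih, h0] at h1
    push_cast at h1 ⊢
    linarith

/-- first type: `N = k + M` -/
lemma tele1 (m : ℤ) (a b : ℤ) (w : ℕ → ℤ) (ft gt : ℕ → ℕ → ℚ)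
    (hW : ∀ k M, gt k (M + 1) - m * gt k M = m * (ft k (M + 1) - ft (k + 1) M))
    (hb : ∀ k, gt k 0 = m * ft k 0)
    (h0 : ∀ N : ℕ, ft 0 N = ((a * N + b) * w N : ℤ)) (N : ℕ) :
    ∑ k ∈ range N, gt k (N - 1 - k) = m * (S a b m w N : ℤ) := by
  have h := tele m a b w (fun N k => if k ≤ N then ft k (N - k) else 0)
    (fun N k => if k < N then gt k (N - 1 - k) else 0) ?_ ?_ ?_ ?_ N
  · rw [← h]
    apply sum_congr rfl
    intro k hk
    rw [mem_range] at hk
    simp [hk]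
  · intro N k hk
    rcases Nat.lt_or_ge k N with h | h
    · obtain ⟨M, rfl⟩ : ∃ M, N = k + M + 1 := ⟨N - k - 1, by omega⟩
      have e1 : k + M + 1 + 1 - 1 - k = M + 1 := by omega
      have e2 : k + M + 1 - 1 - k = M := by omega
      have e3 : k + M + 1 - k = M + 1 := by omega
      have e4 : k + M + 1 - (k + 1) = M := by omega
      simp only [e1, e2, e3, e4]
      rw [if_pos (by omega), if_pos (by omega), if_pos (by omega), if_pos (by omega)]
      exact hW k M
    · have : k = N := by omega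
      subst this
      have e1 : k + 1 - 1 - k = 0 := by omega
      have e2 : k - k = 0 := by omega
      simp only [e1, e2]
      rw [if_pos (by omega), if_neg (by omega), if_pos (by omega), if_neg (by omega), hb]
      ring
  · intro N; simp
  · intro N; simp
  · intro N
    simp only [Nat.zero_le, if_true, Nat.sub_zero]
    exact h0 N

/-- second type: `N = 2 k + M` -/
lemma tele2 (m : ℤ) (a b : ℤ) (w : ℕ → ℤ) (ft gt : ℕ → ℕ → ℚ)
    (hW : ∀ k M, gt k (M + 2) - m * gt k (M + 1) = m * (ft k (M + 2) - ft (k + 1) M))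
    (hb1 : ∀ k, gt k 1 - m * gt k 0 = m * ft k 1)
    (hb : ∀ k, gt k 0 = m * ft k 0)
    (h0 : ∀ N : ℕ, ft 0 N = ((a * N + b) * w N : ℤ)) (N : ℕ) :
    ∑ k ∈ range N, (if 2 * k + 1 ≤ N then gt k (N - 2 * k - 1) else 0) = m * (S a b m w N : ℤ) := by
  have h := tele m a b w (fun N k => if 2 * k ≤ N then ft k (N - 2 * k) else 0)
    (fun N k => if 2 * k + 1 ≤ N then gt k (N - 2 * k - 1) else 0) ?_ ?_ ?_ ?_ N
  · exact h
  · intro N k hk
    rcases Nat.lt_or_ge (2 * k + 1) N with h | h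
    · obtain ⟨M, rfl⟩ : ∃ M, N = 2 * k + M + 2 := ⟨N - 2 * k - 2, by omega⟩
      have e1 : 2 * k + M + 2 + 1 - 2 * k - 1 = M + 2 := by omega
      have e2 : 2 * k + M + 2 - 2 * k - 1 = M + 1 := by omega
      have e3 : 2 * k + M + 2 - 2 * k = M + 2 := by omega
      have e4 : 2 * k + M + 2 - 2 * (k + 1) = M := by omega
      simp only [e1, e2, e3, e4]
      rw [if_pos (by omega), if_pos (by omega), if_pos (by omega), if_pos (by omega)]
      exact hW k M
    · rcases Nat.lt_or_ge (2 * k) N with h' | h'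
      · have : N = 2 * k + 1 := by omega
        subst this
        have e1 : 2 * k + 1 + 1 - 2 * k - 1 = 1 := by omega
        have e2 : 2 * k + 1 - 2 * k - 1 = 0 := by omega
        have e3 : 2 * k + 1 - 2 * k = 1 := by omega
        simp only [e1, e2, e3]
        rw [if_pos (by omega), if_pos (by omega), if_pos (by omega), if_neg (by omega), hb1]
        ring
      · rcases Nat.lt_or_ge N (2 * k) with h2 | h2
        · rw [if_neg (by omega), if_neg (by omega), if_neg (by omega), if_neg (by omega)]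
          ring
        · have : N = 2 * k := by omega
          subst this
          have e1 : 2 * k + 1 - 2 * k - 1 = 0 := by omega
          have e3 : 2 * k - 2 * k = 0 := by omega
          simp only [e1, e3]
          rw [if_pos (by omega), if_neg (by omega), if_pos (by omega), if_neg (by omega), hb]
          ring
  · intro N
    rw [if_neg (by omega)]
  · intro N
    rw [if_neg (by omega)]
  · intro N
    simp only [Nat.zero_le, mul_zero, if_true, Nat.sub_zero]
    exact h0 N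

/-- `x` is an integer multiple of `d` up to powers of `b` -/
def Q (b d : ℤ) (x : ℚ) : Prop := ∃ (i : ℕ) (z : ℤ), (b : ℚ) ^ i * x = d * z

lemma Q_zero (b d : ℤ) : Q b d 0 := ⟨0, 0, by simp⟩

lemma Q_add {b d : ℤ} {x y : ℚ} (hx : Q b d x) (hy : Q b d y) : Q b d (x + y) := by
  obtain ⟨i, z, hz⟩ := hx
  obtain ⟨j, t, ht⟩ := hy
  refine ⟨i + j, b ^ j * z + b ^ i * t, ?_⟩
  push_cast
  rw [pow_add]
  linear_combination (b : ℚ) ^ j * hz + (b : ℚ) ^ i * ht

lemma Q_sum {b d : ℤ} (N : ℕ) (x : ℕ → ℚ) (h : ∀ k, k < N → Q b d (x k)) :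
    Q b d (∑ k ∈ range N, x k) := by
  induction N with
  | zero => simpa using Q_zero b d
  | succ N ih =>
    rw [sum_range_succ]
    exact Q_add (ih (fun k hk => h k (by omega))) (h N (by omega))

lemma Q_int_mul {b d : ℤ} {x : ℚ} (hx : Q b d x) (t : ℤ) : Q b d (t * x) := by
  obtain ⟨i, z, hz⟩ := hx
  refine ⟨i, t * z, ?_⟩
  push_cast
  linear_combination (t : ℚ) * hz

lemma Q_of_pow_mul {b d : ℤ} {x : ℚ} (e : ℕ) (hx : Q b d ((b : ℚ) ^ e * x)) : Q b d x := by
  obtain ⟨i, z, hz⟩ := hx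
  refine ⟨i + e, z, ?_⟩
  rw [pow_add, mul_assoc]
  exact hz

/-- from the rational statement to divisibility -/
lemma Q_dvd {b d : ℤ} {s : ℤ} (h : Q b d (s : ℚ)) : ∃ i : ℕ, d ∣ b ^ i * s := by
  obtain ⟨i, z, hz⟩ := h
  refine ⟨i, z, ?_⟩
  have : ((b ^ i * s : ℤ) : ℚ) = ((d * z : ℤ) : ℚ) := by push_cast; exact hz
  exact_mod_cast this

/-- combined: the part of the divisibility by `D n` prime to `b` -/
lemma main_part (a b m : ℤ) (w : ℕ → ℤ) (bb : ℤ) (hbb : bb ≠ 0)
    (hQ : ∀ n : ℕ, 1 ≤ n → Q bb ((n : ℤ) * cb n) (m * (S a b m w n : ℤ)))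
    (hm : ∃ x : ℕ, m ∣ bb ^ x) (hm0 : m ≠ 0)
    (hw : ∀ n : ℕ, (2 * (n : ℤ) + 1) * cb n ∣ w n) (n : ℕ) (hn : 1 ≤ n) :
    ∃ i : ℕ, D n ∣ bb ^ i * S a b m w n := by
  obtain ⟨x, y, hy⟩ := hm
  have key : ∀ n : ℕ, 1 ≤ n → ∃ i : ℕ, (n : ℤ) * cb n ∣ bb ^ i * S a b m w n := by
    intro n hn
    have h1 := Q_int_mul (hQ n hn) y
    have h2 : ((y : ℚ) * ((m : ℚ) * ((S a b m w n : ℤ) : ℚ))) = (bb : ℚ) ^ x * ((S a b m w n : ℤ) : ℚ) := by
      have : ((bb ^ x : ℤ) : ℚ) = ((m * y : ℤ) : ℚ) := by rw [hy]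
      push_cast at this
      rw [this]; ring
    rw [h2] at h1
    exact Q_dvd (Q_of_pow_mul x h1)
  obtain ⟨i, hi⟩ := key n hn
  obtain ⟨j, hj⟩ := key (n + 1) (by omega)
  have h1 : (n : ℤ) * cb n ∣ bb ^ (i + j) * S a b m w n := by
    rw [pow_add, mul_assoc, mul_comm (bb ^ j), ← mul_assoc]
    exact Dvd.dvd.mul_right hi _
  have h2 : ((n : ℤ) + 1) * cb (n + 1) ∣ bb ^ (i + j) * S a b m w (n + 1) := by
    rw [pow_add, mul_assoc]
    push_cast at hj
    exact Dvd.dvd.mul_left hj _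
  have h3 := odd_part a b m w n hn (bb ^ (i + j)) (pow_ne_zero _ hbb) h1 h2 (hw n)
  refine ⟨i + j + x, ?_⟩
  rw [pow_add _ (i + j) x, hy]
  have : bb ^ (i + j) * (m * y) * S a b m w n = (bb ^ (i + j) * m * S a b m w n) * y := by ring
  rw [this]
  exact Dvd.dvd.mul_right h3 _

/-- factorial form of the weights -/
lemma w2_fact (n : ℕ) : (w2 n : ℚ) = ((3 * n).factorial : ℚ) * ((2 * n).factorial : ℚ) / (n.factorial : ℚ) ^ 5 := by
  unfold w2 cb
  push_cast
  rw [Nat.cast_choose ℚ (show n ≤ 2 * n by omega), Nat.cast_choose ℚ (show n ≤ 3 * n by omega)]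
  have e1 : 2 * n - n = n := by omega
  have e2 : 3 * n - n = 2 * n := by omega
  rw [e1, e2]
  have h1 : (n.factorial : ℚ) ≠ 0 := by exact_mod_cast n.factorial_ne_zero
  have h2 : ((2 * n).factorial : ℚ) ≠ 0 := by exact_mod_cast (2 * n).factorial_ne_zero
  field_simp

lemma w4_fact (n : ℕ) : (w4 n : ℚ) = ((4 * n).factorial : ℚ) / (n.factorial : ℚ) ^ 4 := by
  rw [w4_eq, fact4]
  unfold cb
  have h1 : (n.factorial : ℚ) ≠ 0 := by exact_mod_cast n.factorial_ne_zero
  push_cast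
  field_simp

lemma cb_fact (n : ℕ) : (cb n : ℚ) = ((2 * n).factorial : ℚ) / (n.factorial : ℚ) ^ 2 := by
  unfold cb
  push_cast
  rw [Nat.cast_choose ℚ (show n ≤ 2 * n by omega)]
  have e1 : 2 * n - n = n := by omega
  rw [e1]
  ring

end Pool.Agent.Q33.Fam
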