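import Pool.Agent.Q33.Fam.Sign

set_option autoImplicit false
set_option linter.all false

/-! The 3-adic part. -/

namespace Pool.Agent.Q33.Fam

open Finset

/-- valuation of the factorial -/
def V (n : ℕ) : ℕ := padicValNat 3 n.factorial

/-- digit sum in base 3 -/
def s (n : ℕ) : ℕ := n - 2 * V n

instance fact3 : Fact (Nat.Prime 3) := ⟨Nat.prime_three⟩

lemma s_V (n : ℕ) : s n + 2 * V n = n := by
  have h := sub_one_mul_padicValNat_factorial (p := 3) n
  have h2 := Nat.digit_sum_le 3 n
  unfold s V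
  omega

lemma V_mul_add (x r : ℕ) (hr : r < 3) : V (3 * x + r) = V x + x := by
  unfold V
  rw [padicValNat_factorial_mul_add x hr, padicValNat_factorial_mul]

lemma s_mul_add (x r : ℕ) (hr : r < 3) : s (3 * x + r) = s x + r := by
  have h1 := s_V (3 * x + r)
  have h2 := s_V x
  have h3 := V_mul_add x r hr
  omega

lemma s_mul (x : ℕ) : s (3 * x) = s x := s_mul_add x 0 (by norm_num)

lemma V_add (x y : ℕ) : V x + V y ≤ V (x + y) := by
  unfold V
  rw [← padicValNat.mul (Nat.factorial_ne_zero _) (Nat.factorial_ne_zero _)]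
  exact (padicValNat_dvd_iff_le (Nat.factorial_ne_zero _)).mp
    (dvd_trans pow_padicValNat_dvd (Nat.factorial_mul_factorial_dvd_factorial_add x y))

lemma s_add (x y : ℕ) : s (x + y) ≤ s x + s y := by
  have h1 := s_V (x + y)
  have h2 := s_V x
  have h3 := s_V y
  have h4 := V_add x y
  omega

lemma s_zero : s 0 = 0 := by
  have := s_V 0
  omega

lemma s_one : s 1 = 1 := by
  have := s_mul_add 0 1 (by norm_num)
  rw [s_zero] at this
  simpa using this

lemma s_two : s 2 = 2 := by
  have := s_mul_add 0 2 (by norm_num)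
  rw [s_zero] at this
  simpa using this

lemma s_succ (x : ℕ) : s (x + 1) ≤ s x + 1 := by
  have := s_add x 1
  rwa [s_one] at this

lemma s_pos (x : ℕ) (hx : 1 ≤ x) : 1 ≤ s x := by
  induction x using Nat.strong_induction_on with
  | _ x ih =>
    have h := Nat.div_add_mod x 3
    have h2 := Nat.mod_lt x (show 0 < 3 by norm_num)
    have h3 := s_mul_add (x / 3) (x % 3) h2
    rw [h] at h3
    rcases Nat.eq_zero_or_pos (x / 3) with h4 | h4
    · omega
    · have := ih (x / 3) (by omega) h4
      omega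

lemma s_le3 (x : ℕ) (hx : 3 ≤ x) : s x + 2 ≤ x := by
  have h := s_V x
  have h1 := V_add 3 (x - 3)
  have h2 : V 3 = 1 := by
    have := V_mul_add 1 0 (by norm_num)
    have h0 : V 1 = 0 := by
      have := s_V 1
      rw [s_one] at this; omega
    rw [h0] at this
    simpa using this
  have e : 3 + (x - 3) = x := by omega
  rw [e] at h1
  omega

/-- digit sum one means a power of three -/
lemma s_eq_one (x : ℕ) (hx : s x = 1) : ∃ j : ℕ, x = 3 ^ j := by
  induction x using Nat.strong_induction_on with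
  | _ x ih =>
    have h := Nat.div_add_mod x 3
    have h2 := Nat.mod_lt x (show 0 < 3 by norm_num)
    have h3 := s_mul_add (x / 3) (x % 3) h2
    rw [h] at h3
    rcases Nat.eq_zero_or_pos (x / 3) with h4 | h4
    · rw [h4, s_zero] at h3
      exact ⟨0, by omega⟩
    · have h5 := s_pos (x / 3) h4
      obtain ⟨j, hj⟩ := ih (x / 3) (by omega) (by omega)
      refine ⟨j + 1, ?_⟩
      rw [pow_succ, ← hj]
      omega

/-- claim A -/
lemma claimA (k κ : ℕ) (h : k < κ) : V (2 * κ + 3) + 2 * V k ≤ V (κ + 1) + V κ + κ := by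
  have a1 := s_V (2 * κ + 3)
  have a2 := s_V k
  have a3 := s_V (κ + 1)
  have a4 := s_V κ
  suffices hs : s (κ + 1) + s κ + 2 ≤ 2 * (κ - k) + s (2 * κ + 3) + 2 * s k by omega
  have b1 := s_pos (2 * κ + 3) (by omega)
  have b2 := s_succ κ
  rcases Nat.lt_or_ge (k + 2) κ with h3 | h3
  · -- L ≥ 3
    have c1 := s_add k (κ - k)
    have c2 := s_le3 (κ - k) (by omega)
    have e : k + (κ - k) = κ := by omega
    rw [e] at c1
    omega
  · have hm := Nat.div_add_mod κ 3
    have hm2 := Nat.mod_lt κ (show 0 < 3 by norm_num)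
    generalize hx : κ / 3 = x at *
    rcases (show κ % 3 = 0 ∨ κ % 3 = 1 ∨ κ % 3 = 2 by omega) with hr | hr | hr
    · rw [hr] at hm
      have d0 := s_mul x
      have e0 : 3 * x = κ := by omega
      rw [e0] at d0
      have d1 := s_succ (x - 1)
      have e1 : x - 1 + 1 = x := by omega
      rw [e1] at d1
      rcases (show k + 1 = κ ∨ k + 2 = κ by omega) with hk | hk
      · have d2 := s_mul_add (x - 1) 2 (by norm_num)
        have e2 : 3 * (x - 1) + 2 = k := by omega
        rw [e2] at d2
        omega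
      · have d2 := s_mul_add (x - 1) 1 (by norm_num)
        have e2 : 3 * (x - 1) + 1 = k := by omega
        rw [e2] at d2
        omega
    · rw [hr] at hm
      have d0 := s_mul_add x 1 (by norm_num)
      rw [hm] at d0
      have d4 := s_mul_add x 2 (by norm_num)
      have e4 : 3 * x + 2 = κ + 1 := by omega
      rw [e4] at d4
      have d5 := s_mul_add (2 * x + 1) 2 (by norm_num)
      have e5 : 3 * (2 * x + 1) + 2 = 2 * κ + 3 := by omega
      rw [e5] at d5
      have d6 := s_pos (2 * x + 1) (by omega)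
      rcases (show k + 1 = κ ∨ k + 2 = κ by omega) with hk | hk
      · have d2 := s_mul x
        have e2 : 3 * x = k := by omega
        rw [e2] at d2
        omega
      · have d2 := s_mul_add (x - 1) 2 (by norm_num)
        have e2 : 3 * (x - 1) + 2 = k := by omega
        rw [e2] at d2
        have d1 := s_succ (x - 1)
        have e1 : x - 1 + 1 = x := by omega
        rw [e1] at d1
        omega
    · rw [hr] at hm
      have d0 := s_mul_add x 2 (by norm_num)
      rw [hm] at d0
      have d4 := s_mul (x + 1)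
      have e4 : 3 * (x + 1) = κ + 1 := by omega
      rw [e4] at d4
      have d1 := s_succ x
      rcases (show k + 1 = κ ∨ k + 2 = κ by omega) with hk | hk
      · have d2 := s_mul_add x 1 (by norm_num)
        have e2 : 3 * x + 1 = k := by omega
        rw [e2] at d2
        omega
      · have d2 := s_mul x
        have e2 : 3 * x = k := by omega
        rw [e2] at d2
        omega

/-- claim B -/
lemma claimB (κ : ℕ) (h : ∀ j : ℕ, 2 * κ + 3 ≠ 3 ^ j) : V (2 * κ + 3) + V κ ≤ V (κ + 1) + κ := by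
  have a1 := s_V (2 * κ + 3)
  have a3 := s_V (κ + 1)
  have a4 := s_V κ
  suffices hs : s (κ + 1) + 2 ≤ s (2 * κ + 3) + s κ by omega
  have b1 := s_pos (2 * κ + 3) (by omega)
  have b2 : s (2 * κ + 3) ≠ 1 := by
    intro h1
    obtain ⟨j, hj⟩ := s_eq_one _ h1
    exact h j hj
  have hm := Nat.div_add_mod κ 3
  have hm2 := Nat.mod_lt κ (show 0 < 3 by norm_num)
  generalize hx : κ / 3 = x at *
  rcases (show κ % 3 = 0 ∨ κ % 3 = 1 ∨ κ % 3 = 2 by omega) with hr | hr | hr
  · rw [hr] at hm
    have d0 := s_mul x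
    have e0 : 3 * x = κ := by omega
    rw [e0] at d0
    have d4 := s_mul_add x 1 (by norm_num)
    have e4 : 3 * x + 1 = κ + 1 := by omega
    rw [e4] at d4
    omega
  · rw [hr] at hm
    have d0 := s_mul_add x 1 (by norm_num)
    rw [hm] at d0
    have d4 := s_mul_add x 2 (by norm_num)
    have e4 : 3 * x + 2 = κ + 1 := by omega
    rw [e4] at d4
    have d5 := s_mul_add (2 * x + 1) 2 (by norm_num)
    have e5 : 3 * (2 * x + 1) + 2 = 2 * κ + 3 := by omega
    rw [e5] at d5
    have d6 := s_pos (2 * x + 1) (by omega)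
    omega
  · rw [hr] at hm
    have d0 := s_mul_add x 2 (by norm_num)
    rw [hm] at d0
    have d4 := s_mul (x + 1)
    have e4 : 3 * (x + 1) = κ + 1 := by omega
    rw [e4] at d4
    have d1 := s_succ x
    omega

lemma s_pow_sub (i c : ℕ) (hc : 1 ≤ c) : s (c * 3 ^ i - 1) = 2 * i + s (c - 1) := by
  induction i with
  | zero => simp
  | succ i ih =>
    have hp : 1 ≤ 3 ^ i := Nat.one_le_pow _ _ (by norm_num)
    have hp2 : 1 ≤ c * 3 ^ i := Nat.mul_pos hc hp
    have e : c * 3 ^ (i + 1) - 1 = 3 * (c * 3 ^ i - 1) + 2 := by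
      rw [pow_succ]
      have : c * (3 ^ i * 3) = 3 * (c * 3 ^ i) := by ring
      rw [this]
      omega
    rw [e, s_mul_add _ 2 (by norm_num), ih]
    omega

lemma s_rep (i : ℕ) (x : ℕ) (hx : 2 * x + 1 = 3 ^ i) : s x = i := by
  induction i generalizing x with
  | zero =>
    have : x = 0 := by
      rw [pow_zero] at hx; omega
    subst this
    exact s_zero
  | succ i ih =>
    have hp : 3 ^ (i + 1) = 3 * 3 ^ i := by rw [pow_succ]; ring
    rw [hp] at hx
    have hodd : Odd (3 ^ i) := Odd.pow (by decide)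
    obtain ⟨t, ht⟩ := hodd
    have h1 := ih t (by omega)
    have h2 := s_mul_add t 1 (by norm_num)
    have e : 3 * t + 1 = x := by omega
    rw [e] at h2
    omega

/-- the case `2κ+3 = 3^j` -/
lemma rep_facts (κ j : ℕ) (h : 2 * κ + 3 = 3 ^ j) :
    s (κ + 1) = j ∧ s κ + 1 = j ∧ s (2 * κ) + 2 = 2 * j ∧ s (4 * κ) + 2 = 2 * j ∧ κ % 3 = 0 := by
  have hj : j ≠ 0 := by
    intro h0
    rw [h0, pow_zero] at h
    omega
  obtain ⟨i, rfl⟩ : ∃ i, j = i + 1 := ⟨j - 1, by omega⟩
  have hp : 3 ^ (i + 1) = 3 * 3 ^ i := by rw [pow_succ]; ring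
  have hodd : Odd (3 ^ i) := Odd.pow (by decide)
  obtain ⟨t, ht⟩ := hodd
  have hκ : κ = 3 * t := by omega
  have s1 := s_rep (i + 1) (κ + 1) (by omega)
  have s2 := s_rep i t ht.symm
  have s3 := s_mul t
  have s4 : s (2 * κ) = s (2 * t) := by
    have : 2 * κ = 3 * (2 * t) := by omega
    rw [this, s_mul]
  have s5 := s_pow_sub i 1 (by norm_num)
  rw [one_mul] at s5
  have e5 : 3 ^ i - 1 = 2 * t := by omega
  rw [e5] at s5
  have s6 : s (4 * κ) = s (4 * t) := by
    have : 4 * κ = 3 * (4 * t) := by omega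
    rw [this, s_mul]
  have s7 : s (4 * t) = 2 * i := by
    rcases Nat.eq_zero_or_pos i with hi | hi
    · subst hi
      have : t = 0 := by
        rw [pow_zero] at ht; omega
      subst this
      exact s_zero
    · obtain ⟨l, rfl⟩ : ∃ l, i = l + 1 := ⟨i - 1, by omega⟩
      have hpl : 3 ^ (l + 1) = 3 * 3 ^ l := by rw [pow_succ]; ring
      have hp1 : 1 ≤ 3 ^ l := Nat.one_le_pow _ _ (by norm_num)
      have e : 4 * t = 3 * (2 * 3 ^ l - 1) + 1 := by omega
      rw [e, s_mul_add _ 1 (by norm_num), s_pow_sub l 2 (by norm_num)]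
      simp only [Nat.add_one_sub_one]
      rw [s_one]
      omega
  simp only [Nat.sub_self] at s5
  rw [s_zero] at s5
  rw [hκ] at *
  refine ⟨by omega, by omega, by omega, by omega, by omega⟩

end Pool.Agent.Q33.Fam
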