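import Pool.Agent.Q33.Fam.Basic

set_option autoImplicit false
set_option linter.all false

namespace Pool.Agent.Q33.Fam.W10

open Finset Pool.Agent.Q33.Fam

noncomputable def ft (k M : ℕ) : ℚ := (-1) ^ k * (10 * (2 * (k : ℚ) + M) + 3 - 2 * (k : ℚ)) * (((6 * k + 3 * M : ℕ).factorial : ℚ) * ((2 * k + 2 * M : ℕ).factorial : ℚ)) / (((M : ℕ).factorial : ℚ) * ((k + M : ℕ).factorial : ℚ) * ((2 * k + M : ℕ).factorial : ℚ) * ((2 * k + M : ℕ).factorial : ℚ) * ((3 * k + M : ℕ).factorial : ℚ))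

noncomputable def gt (k M : ℕ) : ℚ := (-1) ^ (k + 0) * (4 * (2 * (k : ℚ) + M + 1)) * (((6 * k + 3 * M + 3 : ℕ).factorial : ℚ) * ((2 * k + 2 * M : ℕ).factorial : ℚ)) / (((M : ℕ).factorial : ℚ) * ((k + M : ℕ).factorial : ℚ) * ((2 * k + M + 1 : ℕ).factorial : ℚ) * ((2 * k + M + 1 : ℕ).factorial : ℚ) * ((3 * k + M + 1 : ℕ).factorial : ℚ))

lemma faN (x j : ℕ) : ((x + j).factorial : ℚ) = (∏ i ∈ range j, ((x : ℚ) + i + 1)) * x.factorial := by
  induction j with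
  | zero => simp
  | succ j ih =>
    rw [← add_assoc, Nat.factorial_succ, prod_range_succ]
    push_cast
    rw [ih]
    ring

lemma Wgen (k M : ℕ) : gt k (M + 2) - 8 * gt k (M + 1) = 8 * (ft k (M + 2) - ft (k + 1) M) := by
  unfold ft gt
  have r1 : (6 * k + 3 * (M + 2) + 3 : ℕ) = 6 * k + 3 * M + 9 := by ring
  have r2 : (6 * k + 3 * (M + 1) + 3 : ℕ) = 6 * k + 3 * M + 6 := by ring
  have r3 : (2 * k + (M + 2) + 1 : ℕ) = 2 * k + M + 3 := by ring
  have r4 : (2 * k + 2 * (M + 2) : ℕ) = 2 * k + 2 * M + 4 := by ring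
  have r5 : (3 * k + (M + 2) + 1 : ℕ) = 3 * k + M + 3 := by ring
  have r6 : (2 * k + (M + 1) + 1 : ℕ) = 2 * k + M + 2 := by ring
  have r7 : (2 * k + 2 * (M + 1) : ℕ) = 2 * k + 2 * M + 2 := by ring
  have r8 : (3 * k + (M + 1) + 1 : ℕ) = 3 * k + M + 2 := by ring
  have r9 : (6 * k + 3 * (M + 2) : ℕ) = 6 * k + 3 * M + 6 := by ring
  have r10 : (6 * (k + 1) + 3 * M : ℕ) = 6 * k + 3 * M + 6 := by ring
  have r11 : (2 * (k + 1) + 2 * M : ℕ) = 2 * k + 2 * M + 2 := by ring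
  have r12 : (2 * k + (M + 2) : ℕ) = 2 * k + M + 2 := by ring
  have r13 : (3 * k + (M + 2) : ℕ) = 3 * k + M + 2 := by ring
  have r14 : (2 * (k + 1) + M : ℕ) = 2 * k + M + 2 := by ring
  have r15 : (3 * (k + 1) + M : ℕ) = 3 * k + M + 3 := by ring
  have r16 : (k + (M + 2) : ℕ) = k + M + 2 := by ring
  have r17 : (k + (M + 1) : ℕ) = k + M + 1 := by ring
  have r18 : ((k + 1) + M : ℕ) = k + M + 1 := by ring
  try rw [r1]
  try rw [r2]
  try rw [r3]
  try rw [r4]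
  try rw [r5]
  try rw [r6]
  try rw [r7]
  try rw [r8]
  try rw [r9]
  try rw [r10]
  try rw [r11]
  try rw [r12]
  try rw [r13]
  try rw [r14]
  try rw [r15]
  try rw [r16]
  try rw [r17]
  try rw [r18]
  have e1 := faN (M) 1
  rw [show (M) + 1 = M + 1 from rfl] at e1
  have e2 := faN (M) 2
  rw [show (M) + 2 = M + 2 from rfl] at e2
  have e3 := faN (k + M + 1) 1
  rw [show (k + M + 1) + 1 = k + M + 2 from rfl] at e3
  have e4 := faN (2 * k + M + 2) 1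
  rw [show (2 * k + M + 2) + 1 = 2 * k + M + 3 from rfl] at e4
  have e5 := faN (2 * k + 2 * M + 2) 2
  rw [show (2 * k + 2 * M + 2) + 2 = 2 * k + 2 * M + 4 from rfl] at e5
  have e6 := faN (3 * k + M + 2) 1
  rw [show (3 * k + M + 2) + 1 = 3 * k + M + 3 from rfl] at e6
  have e7 := faN (6 * k + 3 * M + 6) 3
  rw [show (6 * k + 3 * M + 6) + 3 = 6 * k + 3 * M + 9 from rfl] at e7
  simp only [prod_range_succ, prod_range_zero, one_mul, Nat.cast_zero, Nat.cast_one, Nat.cast_ofNat] at e1 e2 e3 e4 e5 e6 e7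
  simp only [e1, e2, e3, e4, e5, e6, e7]
  have h0 : (((M) : ℕ).factorial : ℚ) ≠ 0 := by exact_mod_cast Nat.factorial_ne_zero _
  have h1 : (((k + M + 1) : ℕ).factorial : ℚ) ≠ 0 := by exact_mod_cast Nat.factorial_ne_zero _
  have h2 : (((2 * k + M + 2) : ℕ).factorial : ℚ) ≠ 0 := by exact_mod_cast Nat.factorial_ne_zero _
  have h3 : (((2 * k + 2 * M + 2) : ℕ).factorial : ℚ) ≠ 0 := by exact_mod_cast Nat.factorial_ne_zero _
  have h4 : (((3 * k + M + 2) : ℕ).factorial : ℚ) ≠ 0 := by exact_mod_cast Nat.factorial_ne_zero _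
  have h5 : (((6 * k + 3 * M + 6) : ℕ).factorial : ℚ) ≠ 0 := by exact_mod_cast Nat.factorial_ne_zero _
  generalize (((M) : ℕ).factorial : ℚ) = y0 at *
  generalize (((k + M + 1) : ℕ).factorial : ℚ) = y1 at *
  generalize (((2 * k + M + 2) : ℕ).factorial : ℚ) = y2 at *
  generalize (((2 * k + 2 * M + 2) : ℕ).factorial : ℚ) = y3 at *
  generalize (((3 * k + M + 2) : ℕ).factorial : ℚ) = y4 at *
  generalize (((6 * k + 3 * M + 6) : ℕ).factorial : ℚ) = y5 at *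
  clear e1 e2 e3 e4 e5 e6 e7
  push_cast
  try simp only [pow_add, pow_one]
  generalize ((-1) : ℚ) ^ k = z
  field_simp
  ring

lemma Wb1 (k : ℕ) : gt k 1 - 8 * gt k 0 = 8 * ft k 1 := by
  unfold ft gt
  have r1 : (6 * k + 3 * 1 + 3 : ℕ) = 6 * k + 6 := by ring
  have r2 : (6 * k + 3 * 0 + 3 : ℕ) = 6 * k + 3 := by ring
  have r3 : (2 * k + 1 + 1 : ℕ) = 2 * k + 2 := by ring
  have r4 : (2 * k + 2 * 1 : ℕ) = 2 * k + 2 := by ring
  have r5 : (3 * k + 1 + 1 : ℕ) = 3 * k + 2 := by ring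
  have r6 : (2 * k + 0 + 1 : ℕ) = 2 * k + 1 := by ring
  have r7 : (2 * k + 2 * 0 : ℕ) = 2 * k := by ring
  have r8 : (3 * k + 0 + 1 : ℕ) = 3 * k + 1 := by ring
  have r9 : (6 * k + 3 * 1 : ℕ) = 6 * k + 3 := by ring
  have r10 : (k + 0 : ℕ) = k := by ring
  try rw [r1]
  try rw [r2]
  try rw [r3]
  try rw [r4]
  try rw [r5]
  try rw [r6]
  try rw [r7]
  try rw [r8]
  try rw [r9]
  try rw [r10]
  have e1 := faN (0) 1
  rw [show (0) + 1 = 1 from rfl] at e1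
  have e2 := faN (k) 1
  rw [show (k) + 1 = k + 1 from rfl] at e2
  have e3 := faN (2 * k) 1
  rw [show (2 * k) + 1 = 2 * k + 1 from rfl] at e3
  have e4 := faN (2 * k) 2
  rw [show (2 * k) + 2 = 2 * k + 2 from rfl] at e4
  have e5 := faN (3 * k + 1) 1
  rw [show (3 * k + 1) + 1 = 3 * k + 2 from rfl] at e5
  have e6 := faN (6 * k + 3) 3
  rw [show (6 * k + 3) + 3 = 6 * k + 6 from rfl] at e6
  simp only [prod_range_succ, prod_range_zero, one_mul, Nat.cast_zero, Nat.cast_one, Nat.cast_ofNat] at e1 e2 e3 e4 e5 e6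
  simp only [e1, e2, e3, e4, e5, e6]
  have h0 : (((0) : ℕ).factorial : ℚ) ≠ 0 := by exact_mod_cast Nat.factorial_ne_zero _
  have h1 : (((k) : ℕ).factorial : ℚ) ≠ 0 := by exact_mod_cast Nat.factorial_ne_zero _
  have h2 : (((2 * k) : ℕ).factorial : ℚ) ≠ 0 := by exact_mod_cast Nat.factorial_ne_zero _
  have h3 : (((3 * k + 1) : ℕ).factorial : ℚ) ≠ 0 := by exact_mod_cast Nat.factorial_ne_zero _
  have h4 : (((6 * k + 3) : ℕ).factorial : ℚ) ≠ 0 := by exact_mod_cast Nat.factorial_ne_zero _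
  generalize (((0) : ℕ).factorial : ℚ) = y0 at *
  generalize (((k) : ℕ).factorial : ℚ) = y1 at *
  generalize (((2 * k) : ℕ).factorial : ℚ) = y2 at *
  generalize (((3 * k + 1) : ℕ).factorial : ℚ) = y3 at *
  generalize (((6 * k + 3) : ℕ).factorial : ℚ) = y4 at *
  clear e1 e2 e3 e4 e5 e6
  push_cast
  try simp only [pow_add, pow_one]
  generalize ((-1) : ℚ) ^ k = z
  field_simp
  ring

lemma Wb0 (k : ℕ) : gt k 0 = 8 * ft k 0 := by
  unfold ft gt
  have r1 : (6 * k + 3 * 0 + 3 : ℕ) = 6 * k + 3 := by ring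
  have r2 : (2 * k + 0 + 1 : ℕ) = 2 * k + 1 := by ring
  have r3 : (2 * k + 2 * 0 : ℕ) = 2 * k := by ring
  have r4 : (3 * k + 0 + 1 : ℕ) = 3 * k + 1 := by ring
  have r5 : (6 * k + 3 * 0 : ℕ) = 6 * k := by ring
  have r6 : (2 * k + 0 : ℕ) = 2 * k := by ring
  have r7 : (3 * k + 0 : ℕ) = 3 * k := by ring
  have r8 : (k + 0 : ℕ) = k := by ring
  try rw [r1]
  try rw [r2]
  try rw [r3]
  try rw [r4]
  try rw [r5]
  try rw [r6]
  try rw [r7]
  try rw [r8]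
  have e1 := faN (2 * k) 1
  rw [show (2 * k) + 1 = 2 * k + 1 from rfl] at e1
  have e2 := faN (3 * k) 1
  rw [show (3 * k) + 1 = 3 * k + 1 from rfl] at e2
  have e3 := faN (6 * k) 3
  rw [show (6 * k) + 3 = 6 * k + 3 from rfl] at e3
  simp only [prod_range_succ, prod_range_zero, one_mul, Nat.cast_zero, Nat.cast_one, Nat.cast_ofNat] at e1 e2 e3
  simp only [e1, e2, e3]
  have h0 : (((0) : ℕ).factorial : ℚ) ≠ 0 := by exact_mod_cast Nat.factorial_ne_zero _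
  have h1 : (((k) : ℕ).factorial : ℚ) ≠ 0 := by exact_mod_cast Nat.factorial_ne_zero _
  have h2 : (((2 * k) : ℕ).factorial : ℚ) ≠ 0 := by exact_mod_cast Nat.factorial_ne_zero _
  have h3 : (((3 * k) : ℕ).factorial : ℚ) ≠ 0 := by exact_mod_cast Nat.factorial_ne_zero _
  have h4 : (((6 * k) : ℕ).factorial : ℚ) ≠ 0 := by exact_mod_cast Nat.factorial_ne_zero _
  generalize (((0) : ℕ).factorial : ℚ) = y0 at *
  generalize (((k) : ℕ).factorial : ℚ) = y1 at *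
  generalize (((2 * k) : ℕ).factorial : ℚ) = y2 at *
  generalize (((3 * k) : ℕ).factorial : ℚ) = y3 at *
  generalize (((6 * k) : ℕ).factorial : ℚ) = y4 at *
  clear e1 e2 e3
  push_cast
  try simp only [pow_add, pow_one]
  generalize ((-1) : ℚ) ^ k = z
  field_simp
  ring

end Pool.Agent.Q33.Fam.W10
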