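import Pool.Agent.Q33.Fam.Basic

set_option autoImplicit false
set_option linter.all false

namespace Pool.Agent.Q33.Fam.W35

open Finset Pool.Agent.Q33.Fam

def Lf (K M : ℚ) : ℚ := 72 * K ^ 2 + 105 * K * M + 35 * M ^ 2 + 12 * K + 8 * M

def Pf (K M : ℚ) : ℚ := 2592 * K ^ 4 + 8208 * K ^ 3 * M - 864 * K ^ 3 + 9720 * K ^ 2 * M ^ 2 - 2376 * K ^ 2 * M - 72 * K ^ 2
  + 5061 * K * M ^ 3 - 2043 * K * M ^ 2 - 78 * K * M + 24 * K + 965 * M ^ 4 - 535 * M ^ 3 - 26 * M ^ 2 + 16 * M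

noncomputable def ft (k M : ℕ) : ℚ := match M with
  | 0 => (match k with
    | 0 => 8
    | k + 1 => (-729) ^ (k + 1) * 4 * Lf ((k : ℚ) + 1) 0 * ((6 * k + 5 : ℕ).factorial : ℚ) /
        (((k + 1 : ℕ).factorial : ℚ) * ((2 * k + 2 : ℕ).factorial : ℚ) * ((3 * k + 3 : ℕ).factorial : ℚ)))
  | M + 1 => (-729) ^ k * 4 * Lf (k : ℚ) ((M : ℚ) + 1) * ((6 * k + 4 * M + 3 : ℕ).factorial : ℚ) /
        (((M + 1 : ℕ).factorial : ℚ) * ((k + M + 1 : ℕ).factorial : ℚ) * ((2 * k + M + 1 : ℕ).factorial : ℚ) * ((3 * k + M + 1 : ℕ).factorial : ℚ))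

noncomputable def gt (k M : ℕ) : ℚ := match M with
  | 0 => (match k with
    | 0 => 648
    | k + 1 => (-729) ^ (k + 1) * 324 * Pf ((k : ℚ) + 1) 0 * ((6 * k + 3 : ℕ).factorial : ℚ) /
        (((k + 1 : ℕ).factorial : ℚ) * ((2 * k + 2 : ℕ).factorial : ℚ) * ((3 * k + 3 : ℕ).factorial : ℚ)))
  | M + 1 => (-729) ^ k * 324 * Pf (k : ℚ) ((M : ℚ) + 1) * ((6 * k + 4 * M + 1 : ℕ).factorial : ℚ) /
        (((M + 1 : ℕ).factorial : ℚ) * ((k + M + 1 : ℕ).factorial : ℚ) * ((2 * k + M + 1 : ℕ).factorial : ℚ) * ((3 * k + M + 1 : ℕ).factorial : ℚ))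

lemma ft_z (k : ℕ) : ft (k + 1) 0 = (-729) ^ (k + 1) * 4 * Lf ((k : ℚ) + 1) 0 * ((6 * k + 5 : ℕ).factorial : ℚ) /
        (((k + 1 : ℕ).factorial : ℚ) * ((2 * k + 2 : ℕ).factorial : ℚ) * ((3 * k + 3 : ℕ).factorial : ℚ)) := rfl

lemma ft_s (k M : ℕ) : ft k (M + 1) = (-729) ^ k * 4 * Lf (k : ℚ) ((M : ℚ) + 1) * ((6 * k + 4 * M + 3 : ℕ).factorial : ℚ) /
        (((M + 1 : ℕ).factorial : ℚ) * ((k + M + 1 : ℕ).factorial : ℚ) * ((2 * k + M + 1 : ℕ).factorial : ℚ) * ((3 * k + M + 1 : ℕ).factorial : ℚ)) := rfl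

lemma gt_z (k : ℕ) : gt (k + 1) 0 = (-729) ^ (k + 1) * 324 * Pf ((k : ℚ) + 1) 0 * ((6 * k + 3 : ℕ).factorial : ℚ) /
        (((k + 1 : ℕ).factorial : ℚ) * ((2 * k + 2 : ℕ).factorial : ℚ) * ((3 * k + 3 : ℕ).factorial : ℚ)) := rfl

lemma gt_s (k M : ℕ) : gt k (M + 1) = (-729) ^ k * 324 * Pf (k : ℚ) ((M : ℚ) + 1) * ((6 * k + 4 * M + 1 : ℕ).factorial : ℚ) /
        (((M + 1 : ℕ).factorial : ℚ) * ((k + M + 1 : ℕ).factorial : ℚ) * ((2 * k + M + 1 : ℕ).factorial : ℚ) * ((3 * k + M + 1 : ℕ).factorial : ℚ)) := rfl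

lemma faN (x j : ℕ) : ((x + j).factorial : ℚ) = (∏ i ∈ range j, ((x : ℚ) + i + 1)) * x.factorial := by
  induction j with
  | zero => simp
  | succ j ih =>
    rw [← add_assoc, Nat.factorial_succ, prod_range_succ]
    push_cast
    rw [ih]
    ring

lemma WA (k M : ℕ) : gt k (M + 4) - 81 * gt k (M + 3) = 81 * (ft k (M + 4) - ft (k + 1) (M + 1)) := by
  rw [gt_s k (M + 3), gt_s k (M + 2), ft_s k (M + 3), ft_s (k + 1) M]
  unfold Lf Pf
  have r1 : (6 * k + 4 * (M + 3) + 1 : ℕ) = 6 * k + 4 * M + 13 := by ring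
  have r2 : (6 * k + 4 * (M + 2) + 1 : ℕ) = 6 * k + 4 * M + 9 := by ring
  have r3 : (6 * k + 4 * (M + 3) + 3 : ℕ) = 6 * k + 4 * M + 15 := by ring
  have r4 : (6 * (k + 1) + 4 * M + 3 : ℕ) = 6 * k + 4 * M + 9 := by ring
  have r5 : (2 * k + (M + 3) + 1 : ℕ) = 2 * k + M + 4 := by ring
  have r6 : (3 * k + (M + 3) + 1 : ℕ) = 3 * k + M + 4 := by ring
  have r7 : (2 * k + (M + 2) + 1 : ℕ) = 2 * k + M + 3 := by ring
  have r8 : (3 * k + (M + 2) + 1 : ℕ) = 3 * k + M + 3 := by ring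
  have r9 : (2 * (k + 1) + M + 1 : ℕ) = 2 * k + M + 3 := by ring
  have r10 : (3 * (k + 1) + M + 1 : ℕ) = 3 * k + M + 4 := by ring
  have r11 : (k + (M + 3) + 1 : ℕ) = k + M + 4 := by ring
  have r12 : (k + (M + 2) + 1 : ℕ) = k + M + 3 := by ring
  have r13 : ((k + 1) + M + 1 : ℕ) = k + M + 2 := by ring
  have r14 : ((M + 3) + 1 : ℕ) = M + 4 := by ring
  have r15 : ((M + 2) + 1 : ℕ) = M + 3 := by ring
  try rw [r1]
  try rw [r2]
  try rw [r3]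
  try rw [r4]
  try rw [r5]
  try rw [r6]
  try rw [r7]
  try rw [r8]
  try rw [r9]
  try rw [r10]
  try rw [r11]
  try rw [r12]
  try rw [r13]
  try rw [r14]
  try rw [r15]
  have e1 := faN (M + 1) 2
  rw [show (M + 1) + 2 = M + 3 from rfl] at e1
  have e2 := faN (M + 1) 3
  rw [show (M + 1) + 3 = M + 4 from rfl] at e2
  have e3 := faN (k + M + 2) 1
  rw [show (k + M + 2) + 1 = k + M + 3 from rfl] at e3
  have e4 := faN (k + M + 2) 2
  rw [show (k + M + 2) + 2 = k + M + 4 from rfl] at e4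
  have e5 := faN (2 * k + M + 3) 1
  rw [show (2 * k + M + 3) + 1 = 2 * k + M + 4 from rfl] at e5
  have e6 := faN (3 * k + M + 3) 1
  rw [show (3 * k + M + 3) + 1 = 3 * k + M + 4 from rfl] at e6
  have e7 := faN (6 * k + 4 * M + 9) 4
  rw [show (6 * k + 4 * M + 9) + 4 = 6 * k + 4 * M + 13 from rfl] at e7
  have e8 := faN (6 * k + 4 * M + 9) 6
  rw [show (6 * k + 4 * M + 9) + 6 = 6 * k + 4 * M + 15 from rfl] at e8
  simp only [prod_range_succ, prod_range_zero, one_mul, Nat.cast_zero, Nat.cast_one, Nat.cast_ofNat] at e1 e2 e3 e4 e5 e6 e7 e8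
  simp only [e1, e2, e3, e4, e5, e6, e7, e8]
  have h0 : (((M + 1) : ℕ).factorial : ℚ) ≠ 0 := by exact_mod_cast Nat.factorial_ne_zero _
  have h1 : (((k + M + 2) : ℕ).factorial : ℚ) ≠ 0 := by exact_mod_cast Nat.factorial_ne_zero _
  have h2 : (((2 * k + M + 3) : ℕ).factorial : ℚ) ≠ 0 := by exact_mod_cast Nat.factorial_ne_zero _
  have h3 : (((3 * k + M + 3) : ℕ).factorial : ℚ) ≠ 0 := by exact_mod_cast Nat.factorial_ne_zero _
  have h4 : (((6 * k + 4 * M + 9) : ℕ).factorial : ℚ) ≠ 0 := by exact_mod_cast Nat.factorial_ne_zero _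
  generalize (((M + 1) : ℕ).factorial : ℚ) = y0 at *
  generalize (((k + M + 2) : ℕ).factorial : ℚ) = y1 at *
  generalize (((2 * k + M + 3) : ℕ).factorial : ℚ) = y2 at *
  generalize (((3 * k + M + 3) : ℕ).factorial : ℚ) = y3 at *
  generalize (((6 * k + 4 * M + 9) : ℕ).factorial : ℚ) = y4 at *
  clear e1 e2 e3 e4 e5 e6 e7 e8
  push_cast
  try simp only [pow_add, pow_one]
  generalize ((-729) : ℚ) ^ k = z
  field_simp
  ring

lemma WA0 (k : ℕ) : gt k 3 - 81 * gt k 2 = 81 * (ft k 3 - ft (k + 1) 0) := by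
  rw [gt_s k 2, gt_s k 1, ft_s k 2, ft_z k]
  unfold Lf Pf
  have r1 : (6 * k + 4 * 2 + 1 : ℕ) = 6 * k + 9 := by ring
  have r2 : (6 * k + 4 * 1 + 1 : ℕ) = 6 * k + 5 := by ring
  have r3 : (6 * k + 4 * 2 + 3 : ℕ) = 6 * k + 11 := by ring
  have r4 : (2 * k + 2 + 1 : ℕ) = 2 * k + 3 := by ring
  have r5 : (3 * k + 2 + 1 : ℕ) = 3 * k + 3 := by ring
  have r6 : (2 * k + 1 + 1 : ℕ) = 2 * k + 2 := by ring
  have r7 : (3 * k + 1 + 1 : ℕ) = 3 * k + 2 := by ring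
  have r8 : (k + 2 + 1 : ℕ) = k + 3 := by ring
  have r9 : (k + 1 + 1 : ℕ) = k + 2 := by ring
  have r10 : (2 + 1 : ℕ) = 3 := by ring
  have r11 : (1 + 1 : ℕ) = 2 := by ring
  try rw [r1]
  try rw [r2]
  try rw [r3]
  try rw [r4]
  try rw [r5]
  try rw [r6]
  try rw [r7]
  try rw [r8]
  try rw [r9]
  try rw [r10]
  try rw [r11]
  have e1 := faN (k + 1) 1
  rw [show (k + 1) + 1 = k + 2 from rfl] at e1
  have e2 := faN (k + 1) 2
  rw [show (k + 1) + 2 = k + 3 from rfl] at e2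
  have e3 := faN (2 * k + 2) 1
  rw [show (2 * k + 2) + 1 = 2 * k + 3 from rfl] at e3
  have e4 := faN (3 * k + 2) 1
  rw [show (3 * k + 2) + 1 = 3 * k + 3 from rfl] at e4
  have e5 := faN (6 * k + 5) 4
  rw [show (6 * k + 5) + 4 = 6 * k + 9 from rfl] at e5
  have e6 := faN (6 * k + 5) 6
  rw [show (6 * k + 5) + 6 = 6 * k + 11 from rfl] at e6
  simp only [prod_range_succ, prod_range_zero, one_mul, Nat.cast_zero, Nat.cast_one, Nat.cast_ofNat] at e1 e2 e3 e4 e5 e6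
  simp only [e1, e2, e3, e4, e5, e6]
  have h0 : (((k + 1) : ℕ).factorial : ℚ) ≠ 0 := by exact_mod_cast Nat.factorial_ne_zero _
  have h1 : (((2 * k + 2) : ℕ).factorial : ℚ) ≠ 0 := by exact_mod_cast Nat.factorial_ne_zero _
  have h2 : (((3 * k + 2) : ℕ).factorial : ℚ) ≠ 0 := by exact_mod_cast Nat.factorial_ne_zero _
  have h3 : (((6 * k + 5) : ℕ).factorial : ℚ) ≠ 0 := by exact_mod_cast Nat.factorial_ne_zero _
  generalize (((k + 1) : ℕ).factorial : ℚ) = y0 at *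
  generalize (((2 * k + 2) : ℕ).factorial : ℚ) = y1 at *
  generalize (((3 * k + 2) : ℕ).factorial : ℚ) = y2 at *
  generalize (((6 * k + 5) : ℕ).factorial : ℚ) = y3 at *
  clear e1 e2 e3 e4 e5 e6
  norm_num [Nat.factorial]
  push_cast
  try simp only [pow_add, pow_one]
  generalize ((-729) : ℚ) ^ k = z
  field_simp
  ring

lemma WB2 (k : ℕ) : gt k 2 - 81 * gt k 1 = 81 * ft k 2 := by
  rw [gt_s k 1, gt_s k 0, ft_s k 1]
  unfold Lf Pf
  have r1 : (6 * k + 4 * 1 + 1 : ℕ) = 6 * k + 5 := by ring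
  have r2 : (6 * k + 4 * 0 + 1 : ℕ) = 6 * k + 1 := by ring
  have r3 : (6 * k + 4 * 1 + 3 : ℕ) = 6 * k + 7 := by ring
  have r4 : (2 * k + 1 + 1 : ℕ) = 2 * k + 2 := by ring
  have r5 : (3 * k + 1 + 1 : ℕ) = 3 * k + 2 := by ring
  have r6 : (2 * k + 0 + 1 : ℕ) = 2 * k + 1 := by ring
  have r7 : (3 * k + 0 + 1 : ℕ) = 3 * k + 1 := by ring
  have r8 : (k + 1 + 1 : ℕ) = k + 2 := by ring
  have r9 : (k + 0 + 1 : ℕ) = k + 1 := by ring
  have r10 : (1 + 1 : ℕ) = 2 := by ring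
  have r11 : (0 + 1 : ℕ) = 1 := by ring
  try rw [r1]
  try rw [r2]
  try rw [r3]
  try rw [r4]
  try rw [r5]
  try rw [r6]
  try rw [r7]
  try rw [r8]
  try rw [r9]
  try rw [r10]
  try rw [r11]
  have e1 := faN (k + 1) 1
  rw [show (k + 1) + 1 = k + 2 from rfl] at e1
  have e2 := faN (2 * k + 1) 1
  rw [show (2 * k + 1) + 1 = 2 * k + 2 from rfl] at e2
  have e3 := faN (3 * k + 1) 1
  rw [show (3 * k + 1) + 1 = 3 * k + 2 from rfl] at e3
  have e4 := faN (6 * k + 1) 4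
  rw [show (6 * k + 1) + 4 = 6 * k + 5 from rfl] at e4
  have e5 := faN (6 * k + 1) 6
  rw [show (6 * k + 1) + 6 = 6 * k + 7 from rfl] at e5
  simp only [prod_range_succ, prod_range_zero, one_mul, Nat.cast_zero, Nat.cast_one, Nat.cast_ofNat] at e1 e2 e3 e4 e5
  simp only [e1, e2, e3, e4, e5]
  have h0 : (((k + 1) : ℕ).factorial : ℚ) ≠ 0 := by exact_mod_cast Nat.factorial_ne_zero _
  have h1 : (((2 * k + 1) : ℕ).factorial : ℚ) ≠ 0 := by exact_mod_cast Nat.factorial_ne_zero _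
  have h2 : (((3 * k + 1) : ℕ).factorial : ℚ) ≠ 0 := by exact_mod_cast Nat.factorial_ne_zero _
  have h3 : (((6 * k + 1) : ℕ).factorial : ℚ) ≠ 0 := by exact_mod_cast Nat.factorial_ne_zero _
  generalize (((k + 1) : ℕ).factorial : ℚ) = y0 at *
  generalize (((2 * k + 1) : ℕ).factorial : ℚ) = y1 at *
  generalize (((3 * k + 1) : ℕ).factorial : ℚ) = y2 at *
  generalize (((6 * k + 1) : ℕ).factorial : ℚ) = y3 at *
  clear e1 e2 e3 e4 e5
  norm_num [Nat.factorial]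
  push_cast
  try simp only [pow_add, pow_one]
  generalize ((-729) : ℚ) ^ k = z
  field_simp
  ring

lemma WB1 (k : ℕ) : gt (k + 1) 1 - 81 * gt (k + 1) 0 = 81 * ft (k + 1) 1 := by
  rw [gt_s (k + 1) 0, gt_z k, ft_s (k + 1) 0]
  unfold Lf Pf
  have r1 : (6 * (k + 1) + 4 * 0 + 1 : ℕ) = 6 * k + 7 := by ring
  have r2 : (6 * (k + 1) + 4 * 0 + 3 : ℕ) = 6 * k + 9 := by ring
  have r3 : (2 * (k + 1) + 0 + 1 : ℕ) = 2 * k + 3 := by ring
  have r4 : (3 * (k + 1) + 0 + 1 : ℕ) = 3 * k + 4 := by ring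
  have r5 : ((k + 1) + 0 + 1 : ℕ) = k + 2 := by ring
  have r6 : (0 + 1 : ℕ) = 1 := by ring
  try rw [r1]
  try rw [r2]
  try rw [r3]
  try rw [r4]
  try rw [r5]
  try rw [r6]
  have e1 := faN (k + 1) 1
  rw [show (k + 1) + 1 = k + 2 from rfl] at e1
  have e2 := faN (2 * k + 2) 1
  rw [show (2 * k + 2) + 1 = 2 * k + 3 from rfl] at e2
  have e3 := faN (3 * k + 3) 1
  rw [show (3 * k + 3) + 1 = 3 * k + 4 from rfl] at e3
  have e4 := faN (6 * k + 3) 4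
  rw [show (6 * k + 3) + 4 = 6 * k + 7 from rfl] at e4
  have e5 := faN (6 * k + 3) 6
  rw [show (6 * k + 3) + 6 = 6 * k + 9 from rfl] at e5
  simp only [prod_range_succ, prod_range_zero, one_mul, Nat.cast_zero, Nat.cast_one, Nat.cast_ofNat] at e1 e2 e3 e4 e5
  simp only [e1, e2, e3, e4, e5]
  have h0 : (((k + 1) : ℕ).factorial : ℚ) ≠ 0 := by exact_mod_cast Nat.factorial_ne_zero _
  have h1 : (((2 * k + 2) : ℕ).factorial : ℚ) ≠ 0 := by exact_mod_cast Nat.factorial_ne_zero _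
  have h2 : (((3 * k + 3) : ℕ).factorial : ℚ) ≠ 0 := by exact_mod_cast Nat.factorial_ne_zero _
  have h3 : (((6 * k + 3) : ℕ).factorial : ℚ) ≠ 0 := by exact_mod_cast Nat.factorial_ne_zero _
  generalize (((k + 1) : ℕ).factorial : ℚ) = y0 at *
  generalize (((2 * k + 2) : ℕ).factorial : ℚ) = y1 at *
  generalize (((3 * k + 3) : ℕ).factorial : ℚ) = y2 at *
  generalize (((6 * k + 3) : ℕ).factorial : ℚ) = y3 at *
  clear e1 e2 e3 e4 e5
  norm_num [Nat.factorial]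
  push_cast
  try simp only [pow_add, pow_one]
  generalize ((-729) : ℚ) ^ k = z
  field_simp
  ring

lemma WB0 (k : ℕ) : gt (k + 1) 0 = 81 * ft (k + 1) 0 := by
  rw [gt_z k, ft_z k]
  unfold Lf Pf
  have e1 := faN (6 * k + 3) 2
  rw [show (6 * k + 3) + 2 = 6 * k + 5 from rfl] at e1
  simp only [prod_range_succ, prod_range_zero, one_mul, Nat.cast_zero, Nat.cast_one, Nat.cast_ofNat] at e1
  simp only [e1]
  have h0 : (((k + 1) : ℕ).factorial : ℚ) ≠ 0 := by exact_mod_cast Nat.factorial_ne_zero _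
  have h1 : (((2 * k + 2) : ℕ).factorial : ℚ) ≠ 0 := by exact_mod_cast Nat.factorial_ne_zero _
  have h2 : (((3 * k + 3) : ℕ).factorial : ℚ) ≠ 0 := by exact_mod_cast Nat.factorial_ne_zero _
  have h3 : (((6 * k + 3) : ℕ).factorial : ℚ) ≠ 0 := by exact_mod_cast Nat.factorial_ne_zero _
  generalize (((k + 1) : ℕ).factorial : ℚ) = y0 at *
  generalize (((2 * k + 2) : ℕ).factorial : ℚ) = y1 at *
  generalize (((3 * k + 3) : ℕ).factorial : ℚ) = y2 at *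
  generalize (((6 * k + 3) : ℕ).factorial : ℚ) = y3 at *
  clear e1
  push_cast
  try simp only [pow_add, pow_one]
  generalize ((-729) : ℚ) ^ k = z
  field_simp
  ring

lemma WC1 : gt 0 1 - 81 * gt 0 0 = 81 * ft 0 1 := by
  rw [gt_s 0 0, ft_s 0 0]
  have : gt 0 0 = 648 := rfl
  rw [this]
  unfold Pf Lf
  norm_num [Nat.factorial]

lemma WC0 : gt 0 0 = 81 * ft 0 0 := by
  have h1 : gt 0 0 = 648 := rfl
  have h2 : ft 0 0 = 8 := rfl
  rw [h1, h2]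
  norm_num

end Pool.Agent.Q33.Fam.W35
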