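import Pool.Agent.Q33.Fam.Landau3

set_option autoImplicit false
set_option linter.all false

namespace Pool.Agent.Q33.Fam

lemma X35e_core (q r s : ℕ) (hq : 2 ≤ q) (ho : q % 3 ≠ 0) (hr : r < q) (hs : s < q) :
    (6 * r + 2 * s + 3) / q + (s) / q + (r + s + 1) / q + (2 * r + s) / q ≤ (6 * r + 4 * s + 2) / q + (3 * r + s + 1) / q := by
  have hq0 : 0 < q := by omega
  have be0 : (3 * r + s + 1) / q < 5 := Nat.div_lt_of_lt_mul (by omega)
  have le0 := Nat.mul_div_le (3 * r + s + 1) q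
  have ue0 := Nat.lt_mul_div_succ (3 * r + s + 1) hq0
  generalize (3 * r + s + 1) / q = e0 at *
  have be1 : (6 * r + 2 * s + 3) / q < 9 := Nat.div_lt_of_lt_mul (by omega)
  have le1 := Nat.mul_div_le (6 * r + 2 * s + 3) q
  have ue1 := Nat.lt_mul_div_succ (6 * r + 2 * s + 3) hq0
  generalize (6 * r + 2 * s + 3) / q = e1 at *
  have ze2 : (s) / q = 0 := Nat.div_eq_of_lt (by omega)
  simp only [ze2]
  have be3 : (r + s + 1) / q < 3 := Nat.div_lt_of_lt_mul (by omega)
  have le3 := Nat.mul_div_le (r + s + 1) q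
  have ue3 := Nat.lt_mul_div_succ (r + s + 1) hq0
  generalize (r + s + 1) / q = e3 at *
  have be4 : (2 * r + s) / q < 3 := Nat.div_lt_of_lt_mul (by omega)
  have le4 := Nat.mul_div_le (2 * r + s) q
  have ue4 := Nat.lt_mul_div_succ (2 * r + s) hq0
  generalize (2 * r + s) / q = e4 at *
  suffices hh : (e1 + 0 + e3 + e4 - (e0)) * q ≤ 6 * r + 4 * s + 2 by
    have := (Nat.le_div_iff_mul_le hq0).mpr hh
    omega
  all_goals (interval_cases e0 <;> try omega)
  all_goals (interval_cases e1 <;> try omega)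
  all_goals (interval_cases e3 <;> try omega)
  all_goals (interval_cases e4 <;> try omega)
  all_goals (rcases Nat.eq_zero_or_pos s with h0 | h0 <;> omega)

lemma X35e (K M : ℕ) : ∃ e : ℕ, fp [6 * K + 2 * M + 3, M, K + M + 1, 2 * K + M] ∣ 3 ^ e * fp [6 * K + 4 * M + 2, 3 * K + M + 1] := by
  apply landau_three
  intro q hq ho
  have hq0 : 0 < q := by omega
  obtain ⟨x, r, hr, rfl⟩ : ∃ x r, r < q ∧ K = q * x + r := ⟨K / q, K % q, Nat.mod_lt _ hq0, (Nat.div_add_mod K q).symm⟩
  obtain ⟨y, s, hs, rfl⟩ : ∃ y s, s < q ∧ M = q * y + s := ⟨M / q, M % q, Nat.mod_lt _ hq0, (Nat.div_add_mod M q).symm⟩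
  have k0 : (6 * (q * x + r) + 4 * (q * y + s) + 2) / q = 6 * x + 4 * y + (6 * r + 4 * s + 2) / q := by
    have := fl 6 4 2 q r s x y hq0
    convert this using 2 <;> ring_nf
  have k1 : (3 * (q * x + r) + (q * y + s) + 1) / q = 3 * x + 1 * y + (3 * r + s + 1) / q := by
    have := fl 3 1 1 q r s x y hq0
    convert this using 2 <;> ring_nf
  have k2 : (6 * (q * x + r) + 2 * (q * y + s) + 3) / q = 6 * x + 2 * y + (6 * r + 2 * s + 3) / q := by
    have := fl 6 2 3 q r s x y hq0
    convert this using 2 <;> ring_nf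
  have k3 : ((q * y + s)) / q = 0 * x + 1 * y + (s) / q := by
    have := fl 0 1 0 q r s x y hq0
    convert this using 2 <;> ring_nf
  have k4 : ((q * x + r) + (q * y + s) + 1) / q = 1 * x + 1 * y + (r + s + 1) / q := by
    have := fl 1 1 1 q r s x y hq0
    convert this using 2 <;> ring_nf
  have k5 : (2 * (q * x + r) + (q * y + s)) / q = 2 * x + 1 * y + (2 * r + s) / q := by
    have := fl 2 1 0 q r s x y hq0
    convert this using 2 <;> ring_nf
  simp only [fs_cons, fs_nil, k0, k1, k2, k3, k4, k5]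
  have := X35e_core q r s (by omega) ho hr hs
  omega

end Pool.Agent.Q33.Fam
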