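import Pool.Agent.Q33.Fam.Landau

set_option autoImplicit false
set_option linter.all false

namespace Pool.Agent.Q33.Fam

lemma X51A_core (q r s : ℕ) (hq : 2 ≤ q) (ho : q % 2 = 1) (hr : r < q) (hs : s < q) :
    (3 * r + 3) / q + (r + 2 * s + 1) / q + (2 * r + s + 1) / q + (2 * r + 2 * s + 2) / q + (s) / q + (s) / q ≤ (r + 1) / q + (3 * r + 3 * s + 3) / q + (4 * r + 2 * s + 3) / q + (2 * s) / q := by
  have hq0 : 0 < q := by omega
  have be0 : (r + 1) / q < 2 := Nat.div_lt_of_lt_mul (by omega)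
  have le0 := Nat.mul_div_le (r + 1) q
  have ue0 := Nat.lt_mul_div_succ (r + 1) hq0
  generalize (r + 1) / q = e0 at *
  have be1 : (4 * r + 2 * s + 3) / q < 7 := Nat.div_lt_of_lt_mul (by omega)
  have le1 := Nat.mul_div_le (4 * r + 2 * s + 3) q
  have ue1 := Nat.lt_mul_div_succ (4 * r + 2 * s + 3) hq0
  generalize (4 * r + 2 * s + 3) / q = e1 at *
  have be2 : (2 * s) / q < 2 := Nat.div_lt_of_lt_mul (by omega)
  have le2 := Nat.mul_div_le (2 * s) q
  have ue2 := Nat.lt_mul_div_succ (2 * s) hq0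
  generalize (2 * s) / q = e2 at *
  have be3 : (3 * r + 3) / q < 4 := Nat.div_lt_of_lt_mul (by omega)
  have le3 := Nat.mul_div_le (3 * r + 3) q
  have ue3 := Nat.lt_mul_div_succ (3 * r + 3) hq0
  generalize (3 * r + 3) / q = e3 at *
  have be4 : (r + 2 * s + 1) / q < 4 := Nat.div_lt_of_lt_mul (by omega)
  have le4 := Nat.mul_div_le (r + 2 * s + 1) q
  have ue4 := Nat.lt_mul_div_succ (r + 2 * s + 1) hq0
  generalize (r + 2 * s + 1) / q = e4 at *
  have be5 : (2 * r + s + 1) / q < 4 := Nat.div_lt_of_lt_mul (by omega)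
  have le5 := Nat.mul_div_le (2 * r + s + 1) q
  have ue5 := Nat.lt_mul_div_succ (2 * r + s + 1) hq0
  generalize (2 * r + s + 1) / q = e5 at *
  have be6 : (2 * r + 2 * s + 2) / q < 5 := Nat.div_lt_of_lt_mul (by omega)
  have le6 := Nat.mul_div_le (2 * r + 2 * s + 2) q
  have ue6 := Nat.lt_mul_div_succ (2 * r + 2 * s + 2) hq0
  generalize (2 * r + 2 * s + 2) / q = e6 at *
  have ze7 : (s) / q = 0 := Nat.div_eq_of_lt (by omega)
  simp only [ze7]
  suffices hh : (e3 + e4 + e5 + e6 + 0 + 0 - (e0 + e1 + e2)) * q ≤ 3 * r + 3 * s + 3 by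
    have := (Nat.le_div_iff_mul_le hq0).mpr hh
    omega
  all_goals (interval_cases e0 <;> try omega)
  all_goals (interval_cases e1 <;> try omega)
  all_goals (interval_cases e2 <;> try omega)
  all_goals (interval_cases e3 <;> try omega)
  all_goals (interval_cases e4 <;> try omega)
  all_goals (interval_cases e5 <;> try omega)
  all_goals (interval_cases e6 <;> try omega)

lemma X51A (K M : ℕ) : ∃ e : ℕ, fp [3 * K + 3, K + 2 * M + 1, 2 * K + M + 1, 2 * K + 2 * M + 2, M, M] ∣ 2 ^ e * fp [K + 1, 3 * K + 3 * M + 3, 4 * K + 2 * M + 3, 2 * M] := by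
  apply landau_odd
  intro q hq ho
  have hq0 : 0 < q := by omega
  obtain ⟨x, r, hr, rfl⟩ : ∃ x r, r < q ∧ K = q * x + r := ⟨K / q, K % q, Nat.mod_lt _ hq0, (Nat.div_add_mod K q).symm⟩
  obtain ⟨y, s, hs, rfl⟩ : ∃ y s, s < q ∧ M = q * y + s := ⟨M / q, M % q, Nat.mod_lt _ hq0, (Nat.div_add_mod M q).symm⟩
  have k0 : ((q * x + r) + 1) / q = 1 * x + 0 * y + (r + 1) / q := by
    have := fl 1 0 1 q r s x y hq0
    convert this using 2 <;> ring_nf
  have k1 : (3 * (q * x + r) + 3 * (q * y + s) + 3) / q = 3 * x + 3 * y + (3 * r + 3 * s + 3) / q := by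
    have := fl 3 3 3 q r s x y hq0
    convert this using 2 <;> ring_nf
  have k2 : (4 * (q * x + r) + 2 * (q * y + s) + 3) / q = 4 * x + 2 * y + (4 * r + 2 * s + 3) / q := by
    have := fl 4 2 3 q r s x y hq0
    convert this using 2 <;> ring_nf
  have k3 : (2 * (q * y + s)) / q = 0 * x + 2 * y + (2 * s) / q := by
    have := fl 0 2 0 q r s x y hq0
    convert this using 2 <;> ring_nf
  have k4 : (3 * (q * x + r) + 3) / q = 3 * x + 0 * y + (3 * r + 3) / q := by
    have := fl 3 0 3 q r s x y hq0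
    convert this using 2 <;> ring_nf
  have k5 : ((q * x + r) + 2 * (q * y + s) + 1) / q = 1 * x + 2 * y + (r + 2 * s + 1) / q := by
    have := fl 1 2 1 q r s x y hq0
    convert this using 2 <;> ring_nf
  have k6 : (2 * (q * x + r) + (q * y + s) + 1) / q = 2 * x + 1 * y + (2 * r + s + 1) / q := by
    have := fl 2 1 1 q r s x y hq0
    convert this using 2 <;> ring_nf
  have k7 : (2 * (q * x + r) + 2 * (q * y + s) + 2) / q = 2 * x + 2 * y + (2 * r + 2 * s + 2) / q := by
    have := fl 2 2 2 q r s x y hq0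
    convert this using 2 <;> ring_nf
  have k8 : ((q * y + s)) / q = 0 * x + 1 * y + (s) / q := by
    have := fl 0 1 0 q r s x y hq0
    convert this using 2 <;> ring_nf
  simp only [fs_cons, fs_nil, k0, k1, k2, k3, k4, k5, k6, k7, k8]
  have := X51A_core q r s (by omega) ho hr hs
  omega

end Pool.Agent.Q33.Fam
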